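import Mathlib

set_option autoImplicit false

namespace Pool.Helper570.NCS

open Metric Filter Topology NormedSpace

/-- weakly unconditionally Cauchy bound -/
def WUC {X : Type*} [NormedAddCommGroup X] [NormedSpace ℝ X] (u : ℕ → X) (B : ℝ) : Prop :=
  ∀ (f : StrongDual ℝ X) (F : Finset ℕ), ∑ j ∈ F, |f (u j)| ≤ B * ‖f‖

theorem WUC.sum_le {X : Type*} [NormedAddCommGroup X] [NormedSpace ℝ X] {u : ℕ → X} {B : ℝ}
    (h : WUC u B) (hB : 0 ≤ B) (F : Finset ℕ) (a : ℕ → ℝ) (A : ℝ) (hA : 0 ≤ A)
    (ha : ∀ j ∈ F, |a j| ≤ A) :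
    ‖∑ j ∈ F, a j • u j‖ ≤ A * B := by
  obtain ⟨f, hf1, hf2⟩ := exists_dual_vector'' ℝ (∑ j ∈ F, a j • u j)
  have h1 : f (∑ j ∈ F, a j • u j) = ∑ j ∈ F, a j * f (u j) := by
    rw [map_sum]
    exact Finset.sum_congr rfl fun j _ => by rw [map_smul, smul_eq_mul]
  have h2 : ‖∑ j ∈ F, a j • u j‖ = ∑ j ∈ F, a j * f (u j) := by
    rw [← h1, hf2]; simp
  rw [h2]
  calc ∑ j ∈ F, a j * f (u j) ≤ ∑ j ∈ F, A * |f (u j)| := by
        apply Finset.sum_le_sum
        intro j hj
        calc a j * f (u j) ≤ |a j * f (u j)| := le_abs_self _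
          _ = |a j| * |f (u j)| := abs_mul _ _
          _ ≤ A * |f (u j)| := mul_le_mul_of_nonneg_right (ha j hj) (abs_nonneg _)
    _ = A * ∑ j ∈ F, |f (u j)| := by rw [Finset.mul_sum]
    _ ≤ A * (B * ‖f‖) := mul_le_mul_of_nonneg_left (h f F) hA
    _ ≤ A * (B * 1) := by gcongr
    _ = A * B := by ring

theorem WUC.norm_le {X : Type*} [NormedAddCommGroup X] [NormedSpace ℝ X] {u : ℕ → X} {B : ℝ}
    (h : WUC u B) (hB : 0 ≤ B) (j : ℕ) : ‖u j‖ ≤ B := by
  have := h.sum_le hB {j} (fun _ => 1) 1 zero_le_one (by intro j _; simp)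
  simpa using this

theorem WUC.summable {X : Type*} [NormedAddCommGroup X] [NormedSpace ℝ X] [CompleteSpace X]
    {u : ℕ → X} {B : ℝ} (h : WUC u B) (hB : 0 ≤ B) (a : ℕ → ℝ) (ha : Tendsto a atTop (𝓝 0)) :
    Summable fun j => a j • u j := by
  rw [summable_iff_vanishing_norm]
  intro ε hε
  have h1 : ∀ᶠ j in atTop, |a j| < ε / (B + 1) := by
    have := (Metric.tendsto_atTop.1 ha) (ε / (B + 1)) (by positivity)
    obtain ⟨n, hn⟩ := this
    filter_upwards [eventually_ge_atTop n] with j hj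
    simpa [Real.dist_eq] using hn j hj
  obtain ⟨n, hn⟩ := eventually_atTop.1 h1
  refine ⟨Finset.range n, fun t ht => ?_⟩
  have h2 := h.sum_le hB t a (ε / (B + 1)) (by positivity) (by
    intro j hj
    apply (hn j _).le
    by_contra hcon
    push Not at hcon
    exact (Finset.disjoint_left.1 ht hj) (Finset.mem_range.2 hcon))
  calc ‖∑ j ∈ t, a j • u j‖ ≤ ε / (B + 1) * B := h2
    _ < ε / (B + 1) * (B + 1) := by
        apply mul_lt_mul_of_pos_left _ (by positivity)
        linarith
    _ = ε := by field_simp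

/-- the operator built from an almost biorthogonal system -/
theorem exists_op_of_system {X : Type*} [NormedAddCommGroup X] [NormedSpace ℝ X] [CompleteSpace X]
    (v : ℕ → X) (γ : ℕ → StrongDual ℝ X) (B G : ℝ) (hB : 0 ≤ B) (hv : WUC v B)
    (hG : ∀ n, ‖γ n‖ ≤ G) (hγ : ∀ x, Tendsto (fun n => γ n x) atTop (𝓝 0))
    (h1 : ∀ n, γ n (v n) = 1)
    (h2 : ∀ n m, n ≠ m → |γ n (v m)| ≤ (1 / 4 : ℝ) ^ (n + 1) * (1 / 2 : ℝ) ^ (m + 1)) :
    ∃ T : X →L[ℝ] X, (∀ x, T x = 0 → x = 0) ∧ ∀ δ : ℝ, 0 < δ → ∃ x : X, ‖T x‖ < δ * ‖x‖ := by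
  classical
  have hG0 : 0 ≤ G := (norm_nonneg _).trans (hG 0)
  set w : ℕ → ℝ := fun n => 1 - (1 / 2 : ℝ) ^ (n + 1) with hw
  have hw0 : ∀ n, 0 ≤ w n := by
    intro n
    have : (1 / 2 : ℝ) ^ (n + 1) ≤ 1 := pow_le_one₀ (by norm_num) (by norm_num)
    simp only [hw]; linarith
  have hw1 : ∀ n, w n ≤ 1 := by
    intro n
    have : (0 : ℝ) < (1 / 2 : ℝ) ^ (n + 1) := by positivity
    simp only [hw]; linarith
  have hγb : ∀ n x, |γ n x| ≤ G * ‖x‖ := by
    intro n x
    have := (γ n).le_opNorm x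
    rw [Real.norm_eq_abs] at this
    exact this.trans (mul_le_mul_of_nonneg_right (hG n) (norm_nonneg _))
  have htend : ∀ x, Tendsto (fun n => w n * γ n x) atTop (𝓝 0) := by
    intro x
    apply squeeze_zero_norm (a := fun n => |γ n x|)
    · intro n
      rw [Real.norm_eq_abs, abs_mul, abs_of_nonneg (hw0 n)]
      have := mul_le_mul_of_nonneg_right (hw1 n) (abs_nonneg (γ n x))
      linarith
    · simpa using (hγ x).abs
  have hsum : ∀ x, Summable fun n => (w n * γ n x) • v n := fun x =>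
    hv.summable hB _ (htend x)
  have hbound : ∀ x, ‖∑' n, (w n * γ n x) • v n‖ ≤ (G * B) * ‖x‖ := by
    intro x
    have h3 := (hsum x).hasSum.norm
    apply le_of_tendsto h3
    filter_upwards with F
    have h4 := hv.sum_le hB F (fun n => w n * γ n x) (G * ‖x‖) (by positivity) (by
      intro n _
      rw [abs_mul, abs_of_nonneg (hw0 n)]
      calc w n * |γ n x| ≤ 1 * |γ n x| := mul_le_mul_of_nonneg_right (hw1 n) (abs_nonneg _)
        _ = |γ n x| := one_mul _
        _ ≤ _ := hγb n x)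
    linarith
  let S : X →ₗ[ℝ] X :=
    { toFun := fun x => ∑' n, (w n * γ n x) • v n
      map_add' := by
        intro x y
        rw [← (hsum x).tsum_add (hsum y)]
        congr 1
        funext n
        rw [map_add, mul_add, add_smul]
      map_smul' := by
        intro c x
        rw [RingHom.id_apply, ← (hsum x).tsum_const_smul c]
        congr 1
        funext n
        rw [map_smul, smul_eq_mul, smul_smul]
        congr 1
        ring }
  let S' : X →L[ℝ] X := S.mkContinuous (G * B) hbound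
  have hS' : ∀ x, HasSum (fun n => (w n * γ n x) • v n) (S' x) := fun x => (hsum x).hasSum
  refine ⟨ContinuousLinearMap.id ℝ X - S', ?_, ?_⟩
  · intro x hx
    have e : (ContinuousLinearMap.id ℝ X - S') x = x - S' x := rfl
    rw [e, sub_eq_zero] at hx
    -- all coefficients vanish
    have hcoef : ∀ n, |γ n x| ≤ (G * ‖x‖) * 0 := by
      -- iterate the contraction
      have hstep : ∀ A : ℝ, 0 ≤ A → (∀ n, |γ n x| ≤ A) → ∀ n, |γ n x| ≤ A / 2 := by
        intro A hA hAn n
        have h3 := (hS' x).mapL (γ n)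
        rw [← hx] at h3
        have h4 : HasSum (fun m => if m = n then w n * γ n x else 0) (w n * γ n x) := by
          have := hasSum_single (f := fun m => if m = n then w n * γ n x else 0) n (by
            intro m hm; simp [hm])
          simpa using this
        have h5 := h3.sub h4
        have h6 : ∀ m, ‖γ n ((w m * γ m x) • v m) - (if m = n then w n * γ n x else 0)‖
            ≤ A * (1 / 4 : ℝ) ^ (n + 1) * (1 / 2 : ℝ) ^ (m + 1) := by
          intro m
          by_cases hm : m = n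
          · subst hm
            rw [map_smul, h1, smul_eq_mul, mul_one, if_pos rfl, sub_self, norm_zero]
            positivity
          · rw [if_neg hm, sub_zero, map_smul, smul_eq_mul, Real.norm_eq_abs, abs_mul, abs_mul,
              abs_of_nonneg (hw0 m)]
            have a1 := h2 n m (Ne.symm hm)
            have a2 : w m * |γ m x| ≤ A := by
              calc w m * |γ m x| ≤ 1 * |γ m x| := mul_le_mul_of_nonneg_right (hw1 m) (abs_nonneg _)
                _ = |γ m x| := one_mul _
                _ ≤ A := hAn m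
            calc w m * |γ m x| * |γ n (v m)|
                ≤ A * ((1 / 4 : ℝ) ^ (n + 1) * (1 / 2 : ℝ) ^ (m + 1)) :=
                  mul_le_mul a2 a1 (abs_nonneg _) hA
              _ = _ := by ring
        have h7 : HasSum (fun m : ℕ => A * (1 / 4 : ℝ) ^ (n + 1) * (1 / 2 : ℝ) ^ (m + 1))
            (A * (1 / 4 : ℝ) ^ (n + 1)) := by
          have h8 := (hasSum_geometric_two).mul_left (A * (1 / 4 : ℝ) ^ (n + 1) * (1 / 2))
          have h9 : (fun m : ℕ => A * (1 / 4 : ℝ) ^ (n + 1) * (1 / 2 : ℝ) ^ (m + 1))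
              = fun m : ℕ => A * (1 / 4 : ℝ) ^ (n + 1) * (1 / 2) * (1 / 2 : ℝ) ^ m := by
            funext m; rw [pow_succ]; ring
          rw [h9]
          have h10 : A * (1 / 4 : ℝ) ^ (n + 1) * (1 / 2) * 2 = A * (1 / 4 : ℝ) ^ (n + 1) := by ring
          rw [h10] at h8
          exact h8
        have h10 := tsum_of_norm_bounded h7 h6
        rw [h5.tsum_eq] at h10
        have h11 : γ n x - w n * γ n x = (1 / 2 : ℝ) ^ (n + 1) * γ n x := by
          simp only [hw]; ring
        rw [h11, Real.norm_eq_abs, abs_mul, abs_of_pos (by positivity)] at h10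
        have h12 : (1 / 4 : ℝ) ^ (n + 1) = (1 / 2 : ℝ) ^ (n + 1) * (1 / 2 : ℝ) ^ (n + 1) := by
          rw [← mul_pow]; norm_num
        rw [h12] at h10
        have h13 : (1 / 2 : ℝ) ^ (n + 1) ≤ 1 / 2 := by
          rw [pow_succ]
          have : (1 / 2 : ℝ) ^ n ≤ 1 := pow_le_one₀ (by norm_num) (by norm_num)
          linarith
        have h14 : (0 : ℝ) < (1 / 2 : ℝ) ^ (n + 1) := by positivity
        have h15 : (1 / 2 : ℝ) ^ (n + 1) * |γ n x| ≤ (1 / 2 : ℝ) ^ (n + 1) * (A / 2) := by
          calc (1 / 2 : ℝ) ^ (n + 1) * |γ n x|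
              ≤ A * ((1 / 2 : ℝ) ^ (n + 1) * (1 / 2 : ℝ) ^ (n + 1)) := h10
            _ = (1 / 2 : ℝ) ^ (n + 1) * (A * (1 / 2 : ℝ) ^ (n + 1)) := by ring
            _ ≤ (1 / 2 : ℝ) ^ (n + 1) * (A * (1 / 2)) := by
                apply mul_le_mul_of_nonneg_left _ h14.le
                exact mul_le_mul_of_nonneg_left h13 hA
            _ = _ := by ring
        exact le_of_mul_le_mul_left h15 h14
      have hit : ∀ k : ℕ, ∀ n, |γ n x| ≤ (G * ‖x‖) * (1 / 2 : ℝ) ^ k := by
        intro k
        induction k with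
        | zero => intro n; rw [pow_zero, mul_one]; exact hγb n x
        | succ k ih =>
          intro n
          have := hstep _ (by positivity) ih n
          rw [pow_succ]
          linarith
      intro n
      have hl : Tendsto (fun k : ℕ => (G * ‖x‖) * (1 / 2 : ℝ) ^ k) atTop (𝓝 ((G * ‖x‖) * 0)) :=
        (tendsto_pow_atTop_nhds_zero_of_lt_one (by norm_num) (by norm_num)).const_mul _
      exact ge_of_tendsto' hl (fun k => hit k n)
    have h0 : ∀ n, γ n x = 0 := by
      intro n
      have := hcoef n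
      rw [mul_zero] at this
      exact abs_nonpos_iff.1 this
    have h3 : HasSum (fun n => (w n * γ n x) • v n) 0 := by
      have : (fun n => (w n * γ n x) • v n) = fun _ => (0 : X) := by
        funext n; rw [h0 n, mul_zero, zero_smul]
      rw [this]; exact hasSum_zero
    rw [hx]
    exact (hS' x).unique h3
  · intro δ hδ
    -- T (v m) is small
    have hTv : ∀ m, ‖(ContinuousLinearMap.id ℝ X - S') (v m)‖ ≤ (1 / 2 : ℝ) ^ m * B := by
      intro m
      have h3 := hS' (v m)
      have h4 : HasSum (fun n => if n = m then w m • v m else 0) (w m • v m) := by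
        have := hasSum_single (f := fun n => if n = m then w m • v m else 0) m (by
          intro n hn; simp [hn])
        simpa using this
      have h5 := h3.sub h4
      have h6 : ∀ n, ‖(w n * γ n (v m)) • v n - (if n = m then w m • v m else 0)‖
          ≤ (1 / 2 : ℝ) ^ (m + 1) * B * (1 / 2) * (1 / 2 : ℝ) ^ n := by
        intro n
        by_cases hn : n = m
        · subst hn
          rw [h1, mul_one, if_pos rfl, sub_self, norm_zero]
          positivity
        · rw [if_neg hn, sub_zero, norm_smul, Real.norm_eq_abs, abs_mul, abs_of_nonneg (hw0 n)]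
          have a1 := h2 n m hn
          have a2 : (1 / 4 : ℝ) ^ (n + 1) ≤ (1 / 2) * (1 / 2 : ℝ) ^ n := by
            have : (1 / 4 : ℝ) ^ (n + 1) ≤ (1 / 2 : ℝ) ^ (n + 1) :=
              pow_le_pow_left₀ (by norm_num) (by norm_num) _
            rw [pow_succ (1 / 2 : ℝ) n] at this
            linarith
          have a3 : w n * |γ n (v m)| ≤ (1 / 2 : ℝ) ^ (m + 1) * ((1 / 2) * (1 / 2 : ℝ) ^ n) := by
            calc w n * |γ n (v m)| ≤ 1 * |γ n (v m)| :=
                  mul_le_mul_of_nonneg_right (hw1 n) (abs_nonneg _)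
              _ = |γ n (v m)| := one_mul _
              _ ≤ (1 / 4 : ℝ) ^ (n + 1) * (1 / 2 : ℝ) ^ (m + 1) := a1
              _ ≤ ((1 / 2) * (1 / 2 : ℝ) ^ n) * (1 / 2 : ℝ) ^ (m + 1) :=
                  mul_le_mul_of_nonneg_right a2 (by positivity)
              _ = _ := by ring
          calc w n * |γ n (v m)| * ‖v n‖
              ≤ (1 / 2 : ℝ) ^ (m + 1) * ((1 / 2) * (1 / 2 : ℝ) ^ n) * B :=
                mul_le_mul a3 (hv.norm_le hB n) (norm_nonneg _) (by positivity)
            _ = _ := by ring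
      have h7 : HasSum (fun n : ℕ => (1 / 2 : ℝ) ^ (m + 1) * B * (1 / 2) * (1 / 2 : ℝ) ^ n)
          ((1 / 2 : ℝ) ^ (m + 1) * B) := by
        have h8 := (hasSum_geometric_two).mul_left ((1 / 2 : ℝ) ^ (m + 1) * B * (1 / 2))
        have h10 : (1 / 2 : ℝ) ^ (m + 1) * B * (1 / 2) * 2 = (1 / 2 : ℝ) ^ (m + 1) * B := by ring
        rw [h10] at h8
        exact h8
      have h10 := tsum_of_norm_bounded h7 h6
      rw [h5.tsum_eq] at h10
      have e : (ContinuousLinearMap.id ℝ X - S') (v m)
          = (1 / 2 : ℝ) ^ (m + 1) • v m - (S' (v m) - w m • v m) := by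
        have e0 : (ContinuousLinearMap.id ℝ X - S') (v m) = v m - S' (v m) := rfl
        rw [e0]
        simp only [hw]
        module
      rw [e]
      calc ‖(1 / 2 : ℝ) ^ (m + 1) • v m - (S' (v m) - w m • v m)‖
          ≤ ‖(1 / 2 : ℝ) ^ (m + 1) • v m‖ + ‖S' (v m) - w m • v m‖ := norm_sub_le _ _
        _ ≤ (1 / 2 : ℝ) ^ (m + 1) * B + (1 / 2 : ℝ) ^ (m + 1) * B := by
            apply add_le_add _ h10
            rw [norm_smul, Real.norm_eq_abs, abs_of_pos (by positivity)]
            exact mul_le_mul_of_nonneg_left (hv.norm_le hB m) (by positivity)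
        _ = (1 / 2 : ℝ) ^ m * B := by rw [pow_succ]; ring
    have hGp : 0 < G := by
      by_contra hcon
      push Not at hcon
      have h3 := hγb 0 (v 0)
      rw [h1, abs_one] at h3
      have : G * ‖v 0‖ ≤ 0 := mul_nonpos_of_nonpos_of_nonneg hcon (norm_nonneg _)
      linarith
    have hlow : ∀ m, 1 / G ≤ ‖v m‖ := by
      intro m
      have h3 := hγb m (v m)
      rw [h1, abs_one] at h3
      rw [div_le_iff₀ hGp]
      linarith
    have hBp : 0 < B := by
      have := (hlow 0).trans (hv.norm_le hB 0)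
      have h3 : 0 < 1 / G := by positivity
      linarith
    obtain ⟨m, hm⟩ := exists_pow_lt_of_lt_one (show 0 < δ / (G * B) by positivity)
      (show (1 / 2 : ℝ) < 1 by norm_num)
    refine ⟨v m, lt_of_le_of_lt (hTv m) ?_⟩
    calc (1 / 2 : ℝ) ^ m * B < δ / (G * B) * B := mul_lt_mul_of_pos_right hm hBp
      _ = δ * (1 / G) := by field_simp
      _ ≤ δ * ‖v m‖ := mul_le_mul_of_nonneg_left (hlow m) hδ.le

end Pool.Helper570.NCS
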