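import Pool.Agent.Helper570.NCS.Subseq
import Pool.Agent.Helper570.NCS.Oper

set_option autoImplicit false

namespace Pool.Helper570.NCS

open Metric Filter Topology NormedSpace

theorem WUC.subseq {X : Type*} [NormedAddCommGroup X] [NormedSpace ℝ X] {u : ℕ → X} {B : ℝ}
    (h : WUC u B) (φ : ℕ → ℕ) (hφ : Function.Injective φ) : WUC (fun n => u (φ n)) B := by
  intro f F
  have h1 := h f (F.map ⟨φ, hφ⟩)
  rw [Finset.sum_map] at h1
  exact h1

theorem WUC.tendsto {X : Type*} [NormedAddCommGroup X] [NormedSpace ℝ X] {u : ℕ → X} {B : ℝ}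
    (h : WUC u B) (f : StrongDual ℝ X) : Tendsto (fun n => f (u n)) atTop (𝓝 0) := by
  have h1 : Summable fun n => |f (u n)| :=
    summable_of_sum_le (fun n => abs_nonneg _) (fun F => h f F)
  have h2 := h1.tendsto_atTop_zero
  exact (tendsto_zero_iff_abs_tendsto_zero _).2 h2

/-- a smooth space with a non-null weakly unconditionally Cauchy series -/
theorem exists_op_of_wuc {X : Type*} [NormedAddCommGroup X] [NormedSpace ℝ X] [CompleteSpace X]
    (N : Seminorm ℝ X) (c C : ℝ) (hc : 0 < c) (hN1 : ∀ x, c * ‖x‖ ≤ N x)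
    (hN2 : ∀ x, N x ≤ C * ‖x‖) (hNc : Continuous N)
    (hd : ∀ x, x ≠ 0 → DifferentiableAt ℝ N x)
    (u : ℕ → X) (B δ : ℝ) (hB : 0 ≤ B) (hδ : 0 < δ) (hu : WUC u B) (hlow : ∀ n, δ ≤ ‖u n‖) :
    ∃ T : X →L[ℝ] X, (∀ x, T x = 0 → x = 0) ∧ ∀ δ : ℝ, 0 < δ → ∃ x : X, ‖T x‖ < δ * ‖x‖ := by
  classical
  choose h hh1 hh2 using fun n => exists_dual_vector'' ℝ (u n)
  obtain ⟨ψ, g, hψ, hg⟩ := exists_pointwise_cauchy N c C hc hN1 hN2 hNc hd h hh1
  let d : ℕ → StrongDual ℝ X := fun k => h (ψ k) - g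
  let v : ℕ → X := fun k => u (ψ k)
  have hv : WUC v B := hu.subseq ψ hψ.injective
  have hd0 : ∀ x, Tendsto (fun k => d k x) atTop (𝓝 0) := by
    intro x
    have := (hg x).sub_const (g x)
    rw [sub_self] at this
    exact this
  have hdn : ∀ k, ‖d k‖ ≤ 1 + ‖g‖ := by
    intro k
    have h1 := norm_sub_le (h (ψ k)) g
    have h2 := hh1 (ψ k)
    show ‖h (ψ k) - g‖ ≤ 1 + ‖g‖
    linarith
  have hdv : ∀ᶠ k in atTop, δ / 2 ≤ d k (v k) := by
    have h1 := hv.tendsto g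
    have h2 : ∀ᶠ k in atTop, |g (v k)| < δ / 2 := by
      have := (Metric.tendsto_atTop.1 h1) (δ / 2) (by positivity)
      obtain ⟨n, hn⟩ := this
      filter_upwards [eventually_ge_atTop n] with j hj
      simpa [Real.dist_eq] using hn j hj
    filter_upwards [h2] with k hk
    have h3 : d k (v k) = ‖u (ψ k)‖ - g (v k) := by
      show h (ψ k) (u (ψ k)) - g (u (ψ k)) = _
      rw [hh2]
      rfl
    have h4 := hlow (ψ k)
    rw [h3]
    have := (abs_lt.1 hk).2
    linarith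
  obtain ⟨k₀, hk₀⟩ := eventually_atTop.1 hdv
  let e : ℕ → ℝ := fun j => δ / 2 * (1 / 8 : ℝ) ^ (j + 1)
  have hep : ∀ j, 0 < e j := fun j => by positivity
  have hemono : ∀ i j, i ≤ j → e j ≤ e i := by
    intro i j hij
    apply mul_le_mul_of_nonneg_left _ (by positivity)
    exact pow_le_pow_of_le_one (by norm_num) (by norm_num) (by omega)
  obtain ⟨q, hq1, hq2⟩ := exists_seq_of_forall_finset_exists
    (fun q : ℕ × ℕ => k₀ ≤ q.1)
    (fun q q' : ℕ × ℕ => q.1 < q'.1 ∧ q.2 < q'.2 ∧ |d q'.1 (v q.1)| ≤ e q'.2 ∧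
      |d q.1 (v q'.1)| ≤ e q'.2) (by
      intro s _
      obtain ⟨j, hj⟩ : ∃ j, ∀ x ∈ s, x.2 < j := by
        refine ⟨s.sup Prod.snd + 1, fun x hx => ?_⟩
        exact Nat.lt_succ_of_le (Finset.le_sup (f := Prod.snd) hx)
      have h1 : ∀ x ∈ s, ∀ᶠ k in atTop, x.1 < k ∧ |d k (v x.1)| ≤ e j ∧ |d x.1 (v k)| ≤ e j := by
        intro x _
        have a1 : ∀ᶠ k in atTop, |d k (v x.1)| ≤ e j := by
          obtain ⟨n, hn⟩ := (Metric.tendsto_atTop.1 (hd0 (v x.1))) (e j) (hep j)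
          filter_upwards [eventually_ge_atTop n] with i hi
          have := hn i hi
          rw [Real.dist_eq, sub_zero] at this
          exact this.le
        have a2 : ∀ᶠ k in atTop, |d x.1 (v k)| ≤ e j := by
          obtain ⟨n, hn⟩ := (Metric.tendsto_atTop.1 (hv.tendsto (d x.1))) (e j) (hep j)
          filter_upwards [eventually_ge_atTop n] with i hi
          have := hn i hi
          rw [Real.dist_eq, sub_zero] at this
          exact this.le
        filter_upwards [a1, a2, eventually_gt_atTop x.1] with k b1 b2 b3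
        exact ⟨b3, b1, b2⟩
      have h2 : ∀ᶠ k in atTop, ∀ x ∈ s, x.1 < k ∧ |d k (v x.1)| ≤ e j ∧ |d x.1 (v k)| ≤ e j :=
        (Finset.eventually_all s).2 h1
      obtain ⟨k, hk1, hk2⟩ := (h2.and (eventually_ge_atTop k₀)).exists
      exact ⟨(k, j), hk2, fun x hx => ⟨(hk1 x hx).1, hj x hx, (hk1 x hx).2.1, (hk1 x hx).2.2⟩⟩)
  have hm1 : StrictMono fun n => (q n).1 := by
    intro m n hmn
    exact (hq2 m n hmn).1
  have hm2 : StrictMono fun n => (q n).2 := by
    intro m n hmn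
    exact (hq2 m n hmn).2.1
  have he2 : ∀ n, e (q n).2 ≤ e n := fun n => hemono _ _ (hm2.id_le n)
  let b : ℕ → ℝ := fun n => d (q n).1 (v (q n).1)
  have hb : ∀ n, δ / 2 ≤ b n := fun n => hk₀ _ (hq1 n)
  have hbp : ∀ n, 0 < b n := fun n => lt_of_lt_of_le (by positivity) (hb n)
  have hbi : ∀ n, (b n)⁻¹ ≤ 2 / δ := by
    intro n
    rw [show 2 / δ = (δ / 2)⁻¹ by field_simp]
    exact inv_anti₀ (by positivity) (hb n)
  have hdiv : ∀ n t m, |t| ≤ e m → |(b n)⁻¹ * t| ≤ (1 / 8 : ℝ) ^ (m + 1) := by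
    intro n t m ht
    rw [abs_mul, abs_of_pos (inv_pos.2 (hbp n))]
    calc (b n)⁻¹ * |t| ≤ 2 / δ * e m :=
          mul_le_mul (hbi n) ht (abs_nonneg _) (by positivity)
      _ = (1 / 8 : ℝ) ^ (m + 1) := by
          simp only [e]
          field_simp
  have h8 : ∀ m : ℕ, (1 / 8 : ℝ) ^ (m + 1) = (1 / 4 : ℝ) ^ (m + 1) * (1 / 2 : ℝ) ^ (m + 1) := by
    intro m
    rw [← mul_pow]; norm_num
  refine exists_op_of_system (fun n => v (q n).1) (fun n => (b n)⁻¹ • d (q n).1) B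
    (2 / δ * (1 + ‖g‖)) hB (hv.subseq _ hm1.injective) ?_ ?_ ?_ ?_
  · intro n
    rw [norm_smul, Real.norm_eq_abs, abs_of_pos (inv_pos.2 (hbp n))]
    exact mul_le_mul (hbi n) (hdn _) (norm_nonneg _) (by positivity)
  · intro x
    have h1 := (hd0 x).comp hm1.tendsto_atTop
    apply squeeze_zero_norm (a := fun n => 2 / δ * |d (q n).1 x|)
    · intro n
      show ‖(b n)⁻¹ * d (q n).1 x‖ ≤ _
      rw [Real.norm_eq_abs, abs_mul, abs_of_pos (inv_pos.2 (hbp n))]
      exact mul_le_mul_of_nonneg_right (hbi n) (abs_nonneg _)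
    · have := (h1.abs).const_mul (2 / δ)
      simpa using this
  · intro n
    show (b n)⁻¹ * d (q n).1 (v (q n).1) = 1
    exact inv_mul_cancel₀ (hbp n).ne'
  · intro n m hnm
    show |(b n)⁻¹ * d (q n).1 (v (q m).1)| ≤ _
    rcases lt_or_gt_of_ne hnm with h | h
    · have h1 := (hq2 n m h).2.2.2.trans (he2 m)
      refine (hdiv n _ m h1).trans ?_
      rw [h8]
      apply mul_le_mul_of_nonneg_right _ (by positivity)
      exact pow_le_pow_of_le_one (by norm_num) (by norm_num) (by omega)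
    · have h1 := (hq2 m n h).2.2.1.trans (he2 n)
      refine (hdiv n _ n h1).trans ?_
      rw [h8]
      apply mul_le_mul_of_nonneg_left _ (by positivity)
      exact pow_le_pow_of_le_one (by norm_num) (by norm_num) (by omega)

end Pool.Helper570.NCS
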