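import Mathlib

set_option autoImplicit false

namespace Pool.Helper570.NCS

open NormedSpace Metric

/-- finitely many functionals on an infinite-dimensional space have a common zero -/
theorem exists_common_zero {Y : Type*} [NormedAddCommGroup Y] [NormedSpace ℝ Y]
    (hY : ¬ FiniteDimensional ℝ Y) (s : Finset (StrongDual ℝ Y)) :
    ∃ y : Y, ‖y‖ = 1 ∧ ∀ f ∈ s, f y = 0 := by
  classical
  let L : Y →ₗ[ℝ] (s → ℝ) := LinearMap.pi fun f => (f : StrongDual ℝ Y).toLinearMap
  have hni : ¬ Function.Injective L := by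
    intro hinj
    exact hY (FiniteDimensional.of_injective L hinj)
  have hker : LinearMap.ker L ≠ ⊥ := fun h => hni (LinearMap.ker_eq_bot.1 h)
  obtain ⟨y, hy, hy0⟩ := (Submodule.ne_bot_iff _).1 hker
  have hyp : 0 < ‖y‖ := norm_pos_iff.2 hy0
  refine ⟨(‖y‖)⁻¹ • y, by rw [norm_smul, norm_inv, norm_norm, inv_mul_cancel₀ hyp.ne'], ?_⟩
  intro f hf
  have h1 : L y = 0 := hy
  have h2 := congrFun h1 ⟨f, hf⟩
  have h3 : f y = 0 := h2
  rw [map_smul, h3, smul_zero]

/-- on a separable infinite-dimensional Banach space there is an injective operator which is not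
bounded below -/
theorem exists_compact_inj {Y : Type*} [NormedAddCommGroup Y] [NormedSpace ℝ Y] [CompleteSpace Y]
    (hY : ¬ FiniteDimensional ℝ Y) [TopologicalSpace.SeparableSpace Y] :
    ∃ T : Y →L[ℝ] Y, (∀ y, T y = 0 → y = 0) ∧ ∀ δ : ℝ, 0 < δ → ∃ y : Y, ‖T y‖ < δ * ‖y‖ := by
  classical
  -- a triangular system
  obtain ⟨q, hq1, hq2⟩ := exists_seq_of_forall_finset_exists
    (fun q : Y × StrongDual ℝ Y => ‖q.1‖ = 1 ∧ q.2 q.1 = 1)
    (fun q q' : Y × StrongDual ℝ Y => q.2 q'.1 = 0) (by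
      intro s _
      obtain ⟨y, hy1, hy2⟩ := exists_common_zero hY (s.image Prod.snd)
      obtain ⟨g, _, hg⟩ := exists_dual_vector'' ℝ y
      refine ⟨(y, g), ⟨hy1, ?_⟩, ?_⟩
      · rw [hg]; simp [hy1]
      · intro x hx
        exact hy2 x.2 (Finset.mem_image_of_mem _ hx))
  -- a total sequence of functionals
  have _ : Nonempty Y := ⟨0⟩
  choose f hf1 hf2 using fun n : ℕ => exists_dual_vector'' ℝ (TopologicalSpace.denseSeq Y n)
  have htot : ∀ y : Y, (∀ n, f n y = 0) → y = 0 := by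
    intro y hy
    by_contra hne
    have hp : 0 < ‖y‖ := norm_pos_iff.2 hne
    obtain ⟨n, hn⟩ := (TopologicalSpace.denseRange_denseSeq Y).exists_dist_lt y
      (show 0 < ‖y‖ / 4 by positivity)
    rw [dist_eq_norm] at hn
    have h1 : ‖TopologicalSpace.denseSeq Y n‖ ≤ ‖y - TopologicalSpace.denseSeq Y n‖ := by
      have h2 := hf2 n
      have h3 : f n (TopologicalSpace.denseSeq Y n - y) = ‖TopologicalSpace.denseSeq Y n‖ := by
        rw [map_sub, hy n, h2]; simp
      rw [← h3]
      calc f n (TopologicalSpace.denseSeq Y n - y) ≤ ‖f n‖ * ‖TopologicalSpace.denseSeq Y n - y‖ :=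
            (le_abs_self _).trans ((f n).le_opNorm _)
        _ ≤ 1 * ‖TopologicalSpace.denseSeq Y n - y‖ :=
            mul_le_mul_of_nonneg_right (hf1 n) (norm_nonneg _)
        _ = _ := by rw [one_mul, norm_sub_rev]
    have h4 : ‖y‖ ≤ ‖y - TopologicalSpace.denseSeq Y n‖ + ‖TopologicalSpace.denseSeq Y n‖ := by
      have := norm_add_le (y - TopologicalSpace.denseSeq Y n) (TopologicalSpace.denseSeq Y n)
      rwa [sub_add_cancel] at this
    linarith
  -- the operator
  let A : ℕ → (Y →L[ℝ] Y) := fun n => ((1 / 4 : ℝ) ^ n) • ((f n).smulRight (q n).1)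
  have hA : ∀ n y, A n y = (((1 / 4 : ℝ) ^ n) * f n y) • (q n).1 := by
    intro n y
    simp only [A, smul_apply, ContinuousLinearMap.smulRight_apply, smul_smul]
  have hAn : ∀ n, ‖A n‖ ≤ (1 / 4 : ℝ) ^ n := by
    intro n
    refine (A n).opNorm_le_bound (by positivity) (fun y => ?_)
    rw [hA, norm_smul, (hq1 n).1, mul_one, norm_mul, norm_pow]
    have h1 : ‖f n y‖ ≤ ‖y‖ := by
      have := (f n).le_opNorm y
      have h2 := mul_le_mul_of_nonneg_right (hf1 n) (norm_nonneg y)
      linarith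
    have h3 : ‖(1 / 4 : ℝ)‖ = 1 / 4 := by rw [Real.norm_eq_abs, abs_of_pos (by norm_num)]
    rw [h3]
    exact mul_le_mul_of_nonneg_left h1 (by positivity)
  have hsum : Summable A := Summable.of_norm_bounded
    (summable_geometric_of_lt_one (by norm_num) (by norm_num)) hAn
  have hev : ∀ y : Y, HasSum (fun n => (((1 / 4 : ℝ) ^ n) * f n y) • (q n).1) ((∑' n, A n) y) := by
    intro y
    have := hsum.hasSum.mapL (ContinuousLinearMap.apply ℝ Y y)
    simpa [hA] using this
  refine ⟨∑' n, A n, ?_, ?_⟩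
  · intro y hy
    apply htot
    intro n
    induction n using Nat.strong_induction_on with
    | _ n ih =>
      have h1 := (hev y).mapL (q n).2
      rw [hy, map_zero] at h1
      have h2 : HasSum (fun m => (q n).2 ((((1 / 4 : ℝ) ^ m) * f m y) • (q m).1))
          ((q n).2 ((((1 / 4 : ℝ) ^ n) * f n y) • (q n).1)) := by
        apply hasSum_single
        intro m hm
        rcases lt_or_gt_of_ne hm with h | h
        · rw [ih m h]; simp
        · rw [map_smul, hq2 n m h, smul_zero]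
      have h3 := h1.unique h2
      rw [map_smul, (hq1 n).2, smul_eq_mul, mul_one] at h3
      have h4 : (0 : ℝ) < (1 / 4 : ℝ) ^ n := by positivity
      rcases mul_eq_zero.1 h3.symm with h | h
      · linarith
      · exact h
  · intro δ hδ
    obtain ⟨m, hm⟩ := exists_pow_lt_of_lt_one (show 0 < δ / 2 by positivity)
      (show (1 / 2 : ℝ) < 1 by norm_num)
    obtain ⟨y, hy1, hy2⟩ := exists_common_zero hY ((Finset.range m).image f)
    refine ⟨y, ?_⟩
    rw [hy1, mul_one]
    have h1 : ∀ n, ‖(((1 / 4 : ℝ) ^ n) * f n y) • (q n).1‖ ≤ (1 / 2 : ℝ) ^ m * (1 / 2 : ℝ) ^ n := by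
      intro n
      rw [norm_smul, (hq1 n).1, mul_one, norm_mul, norm_pow]
      have h3 : ‖(1 / 4 : ℝ)‖ = 1 / 4 := by rw [Real.norm_eq_abs, abs_of_pos (by norm_num)]
      rw [h3]
      by_cases hnm : n < m
      · rw [hy2 (f n) (Finset.mem_image_of_mem _ (Finset.mem_range.2 hnm)), norm_zero, mul_zero]
        positivity
      · push Not at hnm
        have h4 : ‖f n y‖ ≤ 1 := by
          have := (f n).le_opNorm y
          rw [hy1, mul_one] at this
          exact this.trans (hf1 n)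
        have h5 : (1 / 4 : ℝ) ^ n = (1 / 2 : ℝ) ^ n * (1 / 2 : ℝ) ^ n := by
          rw [← mul_pow]; norm_num
        have h6 : (1 / 2 : ℝ) ^ n ≤ (1 / 2 : ℝ) ^ m :=
          pow_le_pow_of_le_one (by norm_num) (by norm_num) hnm
        calc (1 / 4 : ℝ) ^ n * ‖f n y‖ ≤ (1 / 4 : ℝ) ^ n * 1 :=
              mul_le_mul_of_nonneg_left h4 (by positivity)
          _ = (1 / 2 : ℝ) ^ n * (1 / 2 : ℝ) ^ n := by rw [mul_one, h5]
          _ ≤ _ := mul_le_mul_of_nonneg_right h6 (by positivity)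
    have h2 : ‖(∑' n, A n) y‖ ≤ (1 / 2 : ℝ) ^ m * 2 := by
      rw [← (hev y).tsum_eq]
      exact tsum_of_norm_bounded ((hasSum_geometric_two).mul_left _) h1
    linarith

/-- transfer along a projection onto a separable infinite-dimensional subspace -/
theorem exists_op_of_complemented {X : Type*} [NormedAddCommGroup X] [NormedSpace ℝ X]
    [CompleteSpace X] (Y : Submodule ℝ X) (hcl : IsClosed (Y : Set X))
    (hsep : TopologicalSpace.IsSeparable (Y : Set X))
    (hY : ¬ FiniteDimensional ℝ Y) (P : X →L[ℝ] Y) (hP : ∀ y : Y, P y = y) :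
    ∃ T : X →L[ℝ] X, (∀ x, T x = 0 → x = 0) ∧ ∀ δ : ℝ, 0 < δ → ∃ x : X, ‖T x‖ < δ * ‖x‖ := by
  have _ : CompleteSpace Y := hcl.completeSpace_coe
  have _ : TopologicalSpace.SeparableSpace Y := hsep.separableSpace
  obtain ⟨T₀, h1, h2⟩ := exists_compact_inj hY
  refine ⟨ContinuousLinearMap.id ℝ X - Y.subtypeL.comp P + Y.subtypeL.comp (T₀.comp P), ?_, ?_⟩
  · intro x hx
    have e : (ContinuousLinearMap.id ℝ X - Y.subtypeL.comp P + Y.subtypeL.comp (T₀.comp P)) x
        = x - (P x : X) + (T₀ (P x) : X) := rfl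
    rw [e] at hx
    have h3 := congrArg P hx
    rw [map_add, map_sub, hP, hP, map_zero, sub_self, zero_add] at h3
    have h4 := h1 _ h3
    rw [h4] at hx
    simpa using hx
  · intro δ hδ
    obtain ⟨y, hy⟩ := h2 δ hδ
    refine ⟨y, ?_⟩
    have e : (ContinuousLinearMap.id ℝ X - Y.subtypeL.comp P + Y.subtypeL.comp (T₀.comp P)) (y : X)
        = (y : X) - (P y : X) + (T₀ (P y) : X) := rfl
    rw [e, hP, sub_self, zero_add]
    exact hy

end Pool.Helper570.NCS
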