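import Pool.Agent.Helper570.NCS.Refl
import Pool.Agent.Helper570.NCS.Compl

set_option autoImplicit false

namespace Pool.Helper570.NCS

open NormedSpace Metric

/-- a countable family of functionals norming a separable set -/
theorem exists_norming_dual {X : Type*} [NormedAddCommGroup X] [NormedSpace ℝ X]
    (S : Set X) (hS : TopologicalSpace.IsSeparable S) :
    ∃ D : Set (StrongDual ℝ X), D.Countable ∧
      ∀ x ∈ S, ∀ ε : ℝ, 0 < ε → ∃ f ∈ D, ‖f‖ ≤ 1 ∧ ‖x‖ - ε ≤ f x := by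
  obtain ⟨c, hc, hSc⟩ := hS
  choose φ hφ1 hφ2 using fun x : X => exists_dual_vector'' ℝ x
  refine ⟨φ '' c, hc.image φ, ?_⟩
  intro x hx ε hε
  obtain ⟨y, hy, hxy⟩ := Metric.mem_closure_iff.1 (hSc hx) (ε / 2) (by positivity)
  refine ⟨φ y, ⟨y, hy, rfl⟩, hφ1 y, ?_⟩
  rw [dist_eq_norm] at hxy
  have h1 : φ y (y - x) ≤ ‖x - y‖ := by
    rw [norm_sub_rev]
    calc φ y (y - x) ≤ ‖φ y‖ * ‖y - x‖ := (le_abs_self _).trans ((φ y).le_opNorm _)
      _ ≤ 1 * ‖y - x‖ := mul_le_mul_of_nonneg_right (hφ1 y) (norm_nonneg _)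
      _ = _ := one_mul _
  have h2 : φ y y = ‖y‖ := hφ2 y
  have h3 : ‖x‖ ≤ ‖x - y‖ + ‖y‖ := by
    have := norm_add_le (x - y) y
    rwa [sub_add_cancel] at this
  rw [map_sub, h2] at h1
  linarith

theorem exists_unit_almost {X : Type*} [NormedAddCommGroup X] [NormedSpace ℝ X]
    (f : StrongDual ℝ X) (ε : ℝ) (hε : 0 < ε) : ∃ y : X, ‖y‖ ≤ 1 ∧ ‖f‖ - ε ≤ f y := by
  by_contra hcon
  push Not at hcon
  have h0 := hcon 0 (by simp)
  rw [map_zero] at h0
  have h1 : ‖f‖ ≤ ‖f‖ - ε := by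
    refine f.opNorm_le_bound h0.le (fun x => ?_)
    by_cases hx : x = 0
    · simp [hx]
    have hp : 0 < ‖x‖ := norm_pos_iff.2 hx
    have key : ∀ s : ℝ, |s| = 1 → s * f x ≤ (‖f‖ - ε) * ‖x‖ := by
      intro s hs
      have hn : ‖(s / ‖x‖) • x‖ ≤ 1 := by
        rw [norm_smul, Real.norm_eq_abs, abs_div, hs, abs_of_pos hp]
        field_simp
        exact le_rfl
      have h2 := (hcon _ hn).le
      rw [map_smul, smul_eq_mul, div_mul_eq_mul_div, div_le_iff₀ hp] at h2
      exact h2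
    rw [Real.norm_eq_abs]
    apply abs_le.2
    constructor
    · have := key (-1) (by simp)
      linarith
    · have := key 1 (by simp)
      linarith
  linarith

theorem exists_norming_predual {X : Type*} [NormedAddCommGroup X] [NormedSpace ℝ X]
    (S : Set (StrongDual ℝ X)) (hS : TopologicalSpace.IsSeparable S) :
    ∃ D : Set X, D.Countable ∧
      ∀ f ∈ S, ∀ ε : ℝ, 0 < ε → ∃ y ∈ D, ‖y‖ ≤ 1 ∧ ‖f‖ - ε ≤ f y := by
  obtain ⟨c, hc, hSc⟩ := hS
  choose φ hφ1 hφ2 using fun q : StrongDual ℝ X × ℕ =>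
    exists_unit_almost q.1 (1 / ((q.2 : ℝ) + 1)) (by positivity)
  refine ⟨φ '' (c ×ˢ Set.univ), (hc.prod Set.countable_univ).image φ, ?_⟩
  intro f hf ε hε
  obtain ⟨g, hg, hfg⟩ := Metric.mem_closure_iff.1 (hSc hf) (ε / 4) (by positivity)
  obtain ⟨n, hn⟩ := exists_nat_one_div_lt (show 0 < ε / 4 by positivity)
  refine ⟨φ (g, n), ⟨(g, n), ⟨hg, Set.mem_univ _⟩, rfl⟩, hφ1 _, ?_⟩
  rw [dist_eq_norm] at hfg
  have h1 : (g - f) (φ (g, n)) ≤ ‖f - g‖ := by
    rw [norm_sub_rev]
    calc (g - f) (φ (g, n)) ≤ ‖g - f‖ * ‖φ (g, n)‖ := (le_abs_self _).trans ((g - f).le_opNorm _)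
      _ ≤ ‖g - f‖ * 1 := mul_le_mul_of_nonneg_left (hφ1 _) (norm_nonneg _)
      _ = _ := mul_one _
  have h2 : ‖g‖ - 1 / ((n : ℝ) + 1) ≤ g (φ (g, n)) := hφ2 (g, n)
  have h3 : ‖f‖ ≤ ‖f - g‖ + ‖g‖ := by
    have := norm_add_le (f - g) g
    rwa [sub_add_cancel] at this
  have h4 : (g - f) (φ (g, n)) = g (φ (g, n)) - f (φ (g, n)) := rfl
  rw [h4] at h1
  linarith

theorem mutual_step {X : Type*} [NormedAddCommGroup X] [NormedSpace ℝ X]
    (A : Submodule ℝ X) (B : Submodule ℝ (StrongDual ℝ X))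
    (hA : TopologicalSpace.IsSeparable (A : Set X))
    (hB : TopologicalSpace.IsSeparable (B : Set (StrongDual ℝ X))) :
    ∃ (A' : Submodule ℝ X) (B' : Submodule ℝ (StrongDual ℝ X)),
      TopologicalSpace.IsSeparable (A' : Set X) ∧
      TopologicalSpace.IsSeparable (B' : Set (StrongDual ℝ X)) ∧ A ≤ A' ∧ B ≤ B' ∧
      (∀ x ∈ A, ∀ ε : ℝ, 0 < ε → ∃ f ∈ B', ‖f‖ ≤ 1 ∧ ‖x‖ - ε ≤ f x) ∧
      (∀ f ∈ B, ∀ ε : ℝ, 0 < ε → ∃ y ∈ A', ‖y‖ ≤ 1 ∧ ‖f‖ - ε ≤ f y) := by
  obtain ⟨D, hD1, hD2⟩ := exists_norming_dual (A : Set X) hA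
  obtain ⟨E, hE1, hE2⟩ := exists_norming_predual (B : Set (StrongDual ℝ X)) hB
  have h1 : TopologicalSpace.IsSeparable ((A : Set X) ∪ E) := hA.union hE1.isSeparable
  have h2 : TopologicalSpace.IsSeparable ((B : Set (StrongDual ℝ X)) ∪ D) :=
    hB.union hD1.isSeparable
  have h3 := TopologicalSpace.IsSeparable.span (R := ℝ) h1
  have h4 := TopologicalSpace.IsSeparable.span (R := ℝ) h2
  refine ⟨Submodule.span ℝ ((A : Set X) ∪ E),
    Submodule.span ℝ ((B : Set (StrongDual ℝ X)) ∪ D), h3, h4, ?_, ?_, ?_, ?_⟩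
  · exact fun x hx => Submodule.subset_span (Or.inl hx)
  · exact fun x hx => Submodule.subset_span (Or.inl hx)
  · intro x hx ε hε
    obtain ⟨f, hf, h⟩ := hD2 x hx ε hε
    exact ⟨f, Submodule.subset_span (Or.inr hf), h⟩
  · intro x hx ε hε
    obtain ⟨f, hf, h⟩ := hE2 x hx ε hε
    exact ⟨f, Submodule.subset_span (Or.inr hf), h⟩

/-- Mutually norming separable subspaces. -/
theorem exists_mutual {X : Type*} [NormedAddCommGroup X] [NormedSpace ℝ X]
    (S : Submodule ℝ X) (hS : TopologicalSpace.IsSeparable (S : Set X)) :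
    ∃ (A : Submodule ℝ X) (B : Submodule ℝ (StrongDual ℝ X)), S ≤ A ∧
      TopologicalSpace.IsSeparable (A : Set X) ∧
      (∀ x ∈ A, ∀ ε : ℝ, 0 < ε → ∃ f ∈ B, ‖f‖ ≤ 1 ∧ ‖x‖ - ε ≤ f x) ∧
      (∀ f ∈ B, ∀ ε : ℝ, 0 < ε → ∃ y ∈ A, ‖y‖ ≤ 1 ∧ ‖f‖ - ε ≤ f y) := by
  classical
  choose! a b hs1 hs2 hs3 hs4 hs5 hs6 using @mutual_step X _ _
  let q : ℕ → Submodule ℝ X × Submodule ℝ (StrongDual ℝ X) :=
    fun n => Nat.rec (S, ⊥) (fun _ r => (a r.1 r.2, b r.1 r.2)) n
  have hq1 : ∀ n, (q (n + 1)).1 = a (q n).1 (q n).2 := fun n => rfl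
  have hq2 : ∀ n, (q (n + 1)).2 = b (q n).1 (q n).2 := fun n => rfl
  have hsep : ∀ n, TopologicalSpace.IsSeparable ((q n).1 : Set X) ∧
      TopologicalSpace.IsSeparable ((q n).2 : Set (StrongDual ℝ X)) := by
    intro n
    induction n with
    | zero =>
      refine ⟨hS, ?_⟩
      have h0 : ((q 0).2 : Set (StrongDual ℝ X)) = {0} := rfl
      rw [h0]
      exact (Set.countable_singleton _).isSeparable
    | succ n ih =>
      rw [hq1, hq2]
      exact ⟨hs1 _ _ ih.1 ih.2, hs2 _ _ ih.1 ih.2⟩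
  have hm1 : Monotone fun n => (q n).1 := by
    apply monotone_nat_of_le_succ
    intro n
    show (q n).1 ≤ (q (n + 1)).1
    rw [hq1]
    exact hs3 _ _ (hsep n).1 (hsep n).2
  have hm2 : Monotone fun n => (q n).2 := by
    apply monotone_nat_of_le_succ
    intro n
    show (q n).2 ≤ (q (n + 1)).2
    rw [hq2]
    exact hs4 _ _ (hsep n).1 (hsep n).2
  have e1 : ∀ x, x ∈ (⨆ n, (q n).1) ↔ ∃ n, x ∈ (q n).1 := by
    intro x
    exact Submodule.mem_iSup_of_directed (fun n => (q n).1) hm1.directed_le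
  have e2 : ∀ x, x ∈ (⨆ n, (q n).2) ↔ ∃ n, x ∈ (q n).2 := by
    intro x
    exact Submodule.mem_iSup_of_directed (fun n => (q n).2) hm2.directed_le
  refine ⟨⨆ n, (q n).1, ⨆ n, (q n).2, ?_, ?_, ?_, ?_⟩
  · exact le_iSup (fun n => (q n).1) 0
  · have : ((⨆ n, (q n).1 : Submodule ℝ X) : Set X) = ⋃ n, ((q n).1 : Set X) := by
      ext x
      simp only [SetLike.mem_coe, Set.mem_iUnion]
      exact e1 x
    rw [this]
    exact TopologicalSpace.IsSeparable.iUnion fun n => (hsep n).1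
  · intro x hx ε hε
    obtain ⟨n, hn⟩ := (e1 x).1 hx
    obtain ⟨f, hf, h⟩ := hs5 (q n).1 (q n).2 (hsep n).1 (hsep n).2 x hn ε hε
    exact ⟨f, (e2 f).2 ⟨n + 1, by rw [hq2]; exact hf⟩, h⟩
  · intro x hx ε hε
    obtain ⟨n, hn⟩ := (e2 x).1 hx
    obtain ⟨f, hf, h⟩ := hs6 (q n).1 (q n).2 (hsep n).1 (hsep n).2 x hn ε hε
    exact ⟨f, (e1 f).2 ⟨n + 1, by rw [hq1]; exact hf⟩, h⟩

/-- an infinite-dimensional space contains a separable infinite-dimensional subspace -/
theorem exists_sep_infdim {X : Type*} [NormedAddCommGroup X] [NormedSpace ℝ X]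
    (hX : ¬ FiniteDimensional ℝ X) : ∃ S : Submodule ℝ X,
      TopologicalSpace.IsSeparable (S : Set X) ∧ ¬ FiniteDimensional ℝ S := by
  classical
  obtain ⟨q, hq1, hq2⟩ := exists_seq_of_forall_finset_exists
    (fun q : X × StrongDual ℝ X => ‖q.1‖ = 1 ∧ q.2 q.1 = 1)
    (fun q q' : X × StrongDual ℝ X => q.2 q'.1 = 0) (by
      intro s _
      obtain ⟨y, hy1, hy2⟩ := exists_common_zero hX (s.image Prod.snd)
      obtain ⟨g, _, hg⟩ := exists_dual_vector'' ℝ y
      refine ⟨(y, g), ⟨hy1, ?_⟩, ?_⟩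
      · rw [hg]; simp [hy1]
      · intro x hx
        exact hy2 x.2 (Finset.mem_image_of_mem _ hx))
  have hli : LinearIndependent ℝ fun n => (q n).1 := by
    rw [linearIndependent_iff']
    intro s g hg i hi
    -- strong induction
    induction i using Nat.strong_induction_on with
    | _ i ih =>
      have h1 := congrArg (q i).2 hg
      rw [map_zero, map_sum, Finset.sum_eq_single_of_mem i hi] at h1
      · rw [map_smul, (hq1 i).2, smul_eq_mul, mul_one] at h1
        exact h1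
      · intro j hj hji
        rcases lt_or_gt_of_ne hji with h | h
        · rw [ih j h hj]; simp
        · rw [map_smul, hq2 i j h, smul_zero]
  refine ⟨Submodule.span ℝ (Set.range fun n => (q n).1),
    (Set.countable_range _).isSeparable.span, ?_⟩
  intro hfd
  have h3 : LinearIndependent ℝ (fun n => (⟨(q n).1, Submodule.subset_span ⟨n, rfl⟩⟩ :
      Submodule.span ℝ (Set.range fun n => (q n).1))) := by
    apply LinearIndependent.of_comp (Submodule.subtype _)
    exact hli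
  have h4 := h3.finite
  exact Set.infinite_univ (Set.toFinite (Set.univ : Set ℕ))

/-- A reflexive infinite-dimensional space admits an injective operator, not bounded below. -/
theorem exists_op_of_refl {X : Type*} [NormedAddCommGroup X] [NormedSpace ℝ X]
    [CompleteSpace X] (hX : ¬ FiniteDimensional ℝ X)
    (hr : Function.Surjective (inclusionInDoubleDual ℝ X)) :
    ∃ T : X →L[ℝ] X, (∀ x, T x = 0 → x = 0) ∧ ∀ δ : ℝ, 0 < δ → ∃ x : X, ‖T x‖ < δ * ‖x‖ := by
  obtain ⟨S, hS1, hS2⟩ := exists_sep_infdim hX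
  obtain ⟨A, B, hSA, hAsep, hAB, hBA⟩ := exists_mutual S hS1
  -- the annihilator of B
  let Z : Submodule ℝ X :=
    { carrier := {x | ∀ f ∈ B, f x = 0}
      add_mem' := by
        intro a b ha hb f hf
        rw [map_add, ha f hf, hb f hf, add_zero]
      zero_mem' := fun f _ => map_zero f
      smul_mem' := by
        intro c x hx f hf
        rw [map_smul, hx f hf, smul_zero] }
  have hZ : ∀ x, x ∈ Z ↔ ∀ f ∈ B, f x = 0 := fun x => Iff.rfl
  have hZcl : IsClosed (Z : Set X) := by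
    have : (Z : Set X) = ⋂ f ∈ B, {x | f x = 0} := by
      ext x; simp [hZ]
    rw [this]
    exact isClosed_biInter fun f _ => isClosed_eq f.continuous continuous_const
  let Y : Submodule ℝ X := A.topologicalClosure
  have hYcl : IsClosed (Y : Set X) := A.isClosed_topologicalClosure
  have hAY : A ≤ Y := A.le_topologicalClosure
  have hYsep : TopologicalSpace.IsSeparable (Y : Set X) := by
    have : (Y : Set X) = closure (A : Set X) := A.topologicalClosure_coe
    rw [this]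
    exact hAsep.closure
  have hYinf : ¬ FiniteDimensional ℝ Y := by
    intro h
    exact hS2 (Submodule.finiteDimensional_of_le (hSA.trans hAY))
  -- the key inequality
  have hkey : ∀ y ∈ Y, ∀ z ∈ Z, ‖y‖ ≤ ‖y + z‖ := by
    intro y hy z hz
    apply le_of_forall_pos_le_add
    intro ε hε
    have hy' : y ∈ closure (A : Set X) := by
      rw [← A.topologicalClosure_coe]; exact hy
    obtain ⟨a, ha, hya⟩ := Metric.mem_closure_iff.1 hy' (ε / 4) (by positivity)
    obtain ⟨f, hf, hf1, hf2⟩ := hAB a ha (ε / 4) (by positivity)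
    rw [dist_eq_norm] at hya
    have h1 : f a = f (a - y) + f (y + z) := by
      rw [map_add, hz f hf, map_sub]; ring
    have h2 : f (a - y) ≤ ‖y - a‖ := by
      rw [norm_sub_rev]
      calc f (a - y) ≤ ‖f‖ * ‖a - y‖ := (le_abs_self _).trans (f.le_opNorm _)
        _ ≤ 1 * ‖a - y‖ := mul_le_mul_of_nonneg_right hf1 (norm_nonneg _)
        _ = _ := one_mul _
    have h3 : f (y + z) ≤ ‖y + z‖ := by
      calc f (y + z) ≤ ‖f‖ * ‖y + z‖ := (le_abs_self _).trans (f.le_opNorm _)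
        _ ≤ 1 * ‖y + z‖ := mul_le_mul_of_nonneg_right hf1 (norm_nonneg _)
        _ = _ := one_mul _
    have h4 : ‖y‖ ≤ ‖y - a‖ + ‖a‖ := by
      have := norm_add_le (y - a) a
      rwa [sub_add_cancel] at this
    linarith
  have hdisj : Y ⊓ Z = ⊥ := by
    rw [eq_bot_iff]
    rintro x ⟨hx1, hx2⟩
    have h1 := hkey x hx1 (-x) (Z.neg_mem hx2)
    rw [add_neg_cancel, norm_zero] at h1
    simpa using norm_le_zero_iff.1 h1
  have hVcl : IsClosed ((Y ⊔ Z : Submodule ℝ X) : Set X) := by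
    apply IsSeqClosed.isClosed
    intro s x hs hsx
    choose y hy z hz hyz using fun n => Submodule.mem_sup.1 (hs n)
    have hc : CauchySeq y := by
      have h1 := hsx.cauchySeq
      rw [Metric.cauchySeq_iff] at h1 ⊢
      intro ε hε
      obtain ⟨N, hN⟩ := h1 ε hε
      refine ⟨N, fun m hm n hn => ?_⟩
      have h2 := hN m hm n hn
      rw [dist_eq_norm] at h2 ⊢
      refine lt_of_le_of_lt ?_ h2
      have h3 := hkey (y m - y n) (Y.sub_mem (hy m) (hy n)) (z m - z n)
        (Z.sub_mem (hz m) (hz n))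
      have h4 : y m - y n + (z m - z n) = s m - s n := by
        rw [← hyz m, ← hyz n]; abel
      rwa [h4] at h3
    obtain ⟨y', hy'⟩ := cauchySeq_tendsto_of_complete hc
    have h1 : y' ∈ Y := hYcl.mem_of_tendsto hy' (Filter.Eventually.of_forall hy)
    have h2 : Filter.Tendsto z Filter.atTop (nhds (x - y')) := by
      have h3 : z = fun n => s n - y n := by
        funext n; rw [← hyz n]; abel
      rw [h3]
      exact hsx.sub hy'
    have h3 : x - y' ∈ Z := hZcl.mem_of_tendsto h2 (Filter.Eventually.of_forall hz)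
    exact Submodule.mem_sup.2 ⟨y', h1, x - y', h3, by abel⟩
  -- functionals vanishing on Z are approximated by B
  have happ : ∀ F : StrongDual ℝ X, (∀ z ∈ Z, F z = 0) → ∀ ε : ℝ, 0 < ε → ∃ f ∈ B, ‖F - f‖ < ε := by
    intro F hF ε hε
    by_contra hcon
    push Not at hcon
    have hFn : F ∉ closure (B : Set (StrongDual ℝ X)) := by
      intro h
      obtain ⟨b, hb, hFb⟩ := Metric.mem_closure_iff.1 h ε hε
      rw [dist_eq_norm] at hFb
      exact absurd hFb (not_lt.2 (hcon b hb))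
    have hconv : Convex ℝ (closure (B : Set (StrongDual ℝ X))) := B.convex.closure
    obtain ⟨G, u, hG1, hG2⟩ := geometric_hahn_banach_closed_point hconv isClosed_closure hFn
    have hG0 : ∀ f ∈ B, G f = 0 := by
      intro f hf
      by_contra hne
      have h1 := hG1 (((u + 1) / G f) • f) (subset_closure (B.smul_mem _ hf))
      rw [map_smul, smul_eq_mul, div_mul_cancel₀ _ hne] at h1
      linarith
    have hu : 0 < u := by
      have := hG1 0 (subset_closure B.zero_mem)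
      rwa [map_zero] at this
    obtain ⟨x, hx⟩ := hr G
    have hGx : ∀ f, G f = f x := by
      intro f
      rw [← hx]
      rfl
    have hxZ : x ∈ Z := by
      rw [hZ]
      intro f hf
      rw [← hGx, hG0 f hf]
    rw [hGx, hF x hxZ] at hG2
    linarith
  have hcod : Y ⊔ Z = ⊤ := by
    by_contra hne
    obtain ⟨x, hx⟩ : ∃ x, x ∉ Y ⊔ Z := by
      by_contra hcon
      push Not at hcon
      exact hne (eq_top_iff.2 fun x _ => hcon x)
    have hx' : x ∉ ((Y ⊔ Z : Submodule ℝ X) : Set X) := hx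
    obtain ⟨F, u, hF1, hF2⟩ := geometric_hahn_banach_closed_point
      (Y ⊔ Z : Submodule ℝ X).convex hVcl hx'
    have hF0 : ∀ v ∈ (Y ⊔ Z : Submodule ℝ X), F v = 0 := by
      intro v hv
      by_contra hne
      have h1 := hF1 (((u + 1) / F v) • v) ((Y ⊔ Z : Submodule ℝ X).smul_mem _ hv)
      rw [map_smul, smul_eq_mul, div_mul_cancel₀ _ hne] at h1
      linarith
    have hu : 0 < u := by
      have := hF1 0 (Y ⊔ Z : Submodule ℝ X).zero_mem
      rwa [map_zero] at this
    have hFz : F = 0 := by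
      have h1 : ‖F‖ ≤ 0 := by
        apply le_of_forall_pos_le_add
        intro ε hε
        obtain ⟨f, hf, hFf⟩ := happ F (fun z hz => hF0 z (Submodule.mem_sup_right hz)) (ε / 4)
          (by positivity)
        obtain ⟨y, hy, hy1, hy2⟩ := hBA f hf (ε / 4) (by positivity)
        have h2 : F y = 0 := hF0 y (Submodule.mem_sup_left (hAY hy))
        have h3 : (f - F) y ≤ ‖F - f‖ := by
          rw [norm_sub_rev]
          calc (f - F) y ≤ ‖f - F‖ * ‖y‖ := (le_abs_self _).trans ((f - F).le_opNorm _)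
            _ ≤ ‖f - F‖ * 1 := mul_le_mul_of_nonneg_left hy1 (norm_nonneg _)
            _ = _ := mul_one _
        have h4 : (f - F) y = f y - F y := rfl
        have h5 : ‖F‖ ≤ ‖F - f‖ + ‖f‖ := by
          have := norm_add_le (F - f) f
          rwa [sub_add_cancel] at this
        rw [h4, h2] at h3
        linarith
      exact norm_le_zero_iff.1 h1
    rw [hFz] at hF2
    have : (0 : StrongDual ℝ X) x = 0 := rfl
    rw [this] at hF2
    linarith
  have hcompl : IsCompl Y Z := IsCompl.of_eq hdisj hcod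
  obtain ⟨P, hP⟩ := Submodule.ClosedComplemented.of_isCompl_isClosed hcompl hYcl hZcl
  exact exists_op_of_complemented Y hYcl hYsep hYinf P hP

end Pool.Helper570.NCS
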