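import Pool.Agent.Helper570.NCS.Local
import Pool.Agent.Helper570.NCS.ReflSep

set_option autoImplicit false

namespace Pool.Helper570.NCS

open Metric Filter Topology NormedSpace

/-- from a finite configuration to a function with a strong local minimum and second order control -/
theorem exists_psi {X : Type*} [NormedAddCommGroup X] [NormedSpace ℝ X]
    (f : X → ℝ) (hf1 : ∀ x, f x ≤ 1) (r M : ℝ) (hr : 0 < r) (hM : 0 < M)
    (K : Finset X) (a b : ℝ) (hab : a < b) (hKa : ∀ k ∈ K, f k ≤ a)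
    (hctrl : ∀ k ∈ K, ∀ y : X, ‖y‖ ≤ r → ∀ u : X, ‖u‖ ≤ r →
      |f (k + y + u) - f (k + y)| ≤ M * ‖u‖ ∧
      f (k + y + u) + f (k + y - u) - 2 * f (k + y) ≤ M * ‖u‖ ^ 2)
    (hfar : ∀ h, r ≤ ‖h‖ → ∃ k ∈ K, b < f (k + h)) :
    ∃ (ψ : X → ℝ) (M' σ B : ℝ), 0 < M' ∧ 0 < σ ∧ σ ≤ r ∧ (∀ y, -B ≤ ψ y) ∧ ψ 0 = 0 ∧
      (∀ y, r ≤ ‖y‖ → 1 ≤ ψ y) ∧
      (∀ y u, ‖y‖ ≤ r → ‖u‖ ≤ σ → ψ (y + u) + ψ (y - u) - 2 * ψ y ≤ M' * ‖u‖ ^ 2) := by
  classical
  set κ : ℝ := (K.card : ℝ) with hκ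
  have hκ0 : 0 ≤ κ := Nat.cast_nonneg _
  set l : ℝ := Real.log (κ + 1) / (b - a) with hl
  have hl0 : 0 ≤ l := div_nonneg (Real.log_nonneg (by linarith)) (by linarith)
  have hlb : Real.exp (l * (b - a)) = κ + 1 := by
    rw [hl, div_mul_cancel₀ _ (by linarith), Real.exp_log (by linarith)]
  let Φ : X → ℝ := fun y => ∑ k ∈ K, Real.exp (l * (f (k + y) - a))
  have hΦ0 : ∀ y, 0 ≤ Φ y := fun y => Finset.sum_nonneg fun _ _ => (Real.exp_pos _).le
  have hΦz : Φ 0 ≤ κ := by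
    show ∑ k ∈ K, Real.exp (l * (f (k + 0) - a)) ≤ κ
    have h1 : ∑ k ∈ K, Real.exp (l * (f (k + 0) - a)) ≤ ∑ k ∈ K, (1 : ℝ) := by
      apply Finset.sum_le_sum
      intro k hk
      rw [add_zero, Real.exp_le_one_iff]
      exact mul_nonpos_of_nonneg_of_nonpos hl0 (by linarith [hKa k hk])
    simpa using h1
  have hΦfar : ∀ y, r ≤ ‖y‖ → κ + 1 ≤ Φ y := by
    intro y hy
    obtain ⟨k, hk, hbk⟩ := hfar y hy
    calc κ + 1 = Real.exp (l * (b - a)) := hlb.symm
      _ ≤ Real.exp (l * (f (k + y) - a)) :=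
          Real.exp_le_exp.2 (mul_le_mul_of_nonneg_left (by linarith) hl0)
      _ ≤ Φ y := Finset.single_le_sum (f := fun k => Real.exp (l * (f (k + y) - a)))
          (fun _ _ => (Real.exp_pos _).le) hk
  set E : ℝ := Real.exp (l * (1 - a)) with hE
  have hEp : 0 < E := Real.exp_pos _
  set Q : ℝ := l * M + 2 * (l * M) ^ 2 with hQ
  have hQ0 : 0 ≤ Q := by positivity
  set σ : ℝ := min r (1 / (l * M + 1)) with hσ
  have hσp : 0 < σ := lt_min hr (by positivity)
  have hσr : σ ≤ r := min_le_left _ _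
  have hσ1 : l * M * σ ≤ 1 := by
    have h1 : σ ≤ 1 / (l * M + 1) := min_le_right _ _
    have h2 : 0 ≤ l * M := by positivity
    calc l * M * σ ≤ l * M * (1 / (l * M + 1)) := mul_le_mul_of_nonneg_left h1 h2
      _ ≤ 1 := by
          rw [mul_one_div, div_le_one (by positivity)]
          linarith
  refine ⟨fun y => Φ y - Φ 0, κ * (E * Q) + 1, σ, Φ 0, by positivity, hσp, hσr, ?_, ?_, ?_, ?_⟩
  · intro y
    have := hΦ0 y
    linarith
  · simp
  · intro y hy
    have := hΦfar y hy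
    linarith
  · intro y u hy hu
    have hur : ‖u‖ ≤ r := hu.trans hσr
    have hu2 : 0 ≤ ‖u‖ ^ 2 := sq_nonneg _
    have hterm : ∀ k ∈ K, Real.exp (l * (f (k + (y + u)) - a)) + Real.exp (l * (f (k + (y - u)) - a))
        - 2 * Real.exp (l * (f (k + y) - a)) ≤ E * Q * ‖u‖ ^ 2 := by
      intro k hk
      obtain ⟨c1, c2⟩ := hctrl k hk y hy u hur
      obtain ⟨c3, -⟩ := hctrl k hk y hy (-u) (by rw [norm_neg]; exact hur)
      rw [norm_neg, ← sub_eq_add_neg] at c3
      rw [show k + (y + u) = k + y + u by abel, show k + (y - u) = k + y - u by abel]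
      set g := f (k + y)
      set s := l * (f (k + y + u) - g) with hs
      set t := l * (f (k + y - u) - g) with ht
      have hlu : l * M * ‖u‖ ≤ 1 :=
        (mul_le_mul_of_nonneg_left hu (by positivity)).trans hσ1
      have hsb : |s| ≤ l * M * ‖u‖ := by
        rw [hs, abs_mul, abs_of_nonneg hl0, mul_assoc]
        exact mul_le_mul_of_nonneg_left c1 hl0
      have htb : |t| ≤ l * M * ‖u‖ := by
        rw [ht, abs_mul, abs_of_nonneg hl0, mul_assoc]
        exact mul_le_mul_of_nonneg_left c3 hl0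
      have hst : s + t ≤ l * M * ‖u‖ ^ 2 := by
        have h1 : s + t = l * (f (k + y + u) + f (k + y - u) - 2 * g) := by
          rw [hs, ht]; ring
        rw [h1, mul_assoc]
        exact mul_le_mul_of_nonneg_left c2 hl0
      have hs2 := (abs_le.1 (Real.abs_exp_sub_one_sub_id_le (hsb.trans hlu))).2
      have ht2 := (abs_le.1 (Real.abs_exp_sub_one_sub_id_le (htb.trans hlu))).2
      have hs3 : s ^ 2 ≤ (l * M * ‖u‖) ^ 2 := by
        rw [← sq_abs s]; exact pow_le_pow_left₀ (abs_nonneg _) hsb 2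
      have ht3 : t ^ 2 ≤ (l * M * ‖u‖) ^ 2 := by
        rw [← sq_abs t]; exact pow_le_pow_left₀ (abs_nonneg _) htb 2
      have hbr : Real.exp s + Real.exp t - 2 ≤ Q * ‖u‖ ^ 2 := by
        have : (l * M * ‖u‖) ^ 2 = (l * M) ^ 2 * ‖u‖ ^ 2 := by ring
        rw [this] at hs3 ht3
        rw [hQ]
        linarith
      have e1 : Real.exp (l * (f (k + y + u) - a)) = Real.exp (l * (g - a)) * Real.exp s := by
        rw [← Real.exp_add]; congr 1; rw [hs]; ring
      have e2 : Real.exp (l * (f (k + y - u) - a)) = Real.exp (l * (g - a)) * Real.exp t := by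
        rw [← Real.exp_add]; congr 1; rw [ht]; ring
      rw [e1, e2]
      have hgE : Real.exp (l * (g - a)) ≤ E := by
        rw [hE]
        exact Real.exp_le_exp.2 (mul_le_mul_of_nonneg_left (by linarith [hf1 (k + y)]) hl0)
      have hgp : 0 < Real.exp (l * (g - a)) := Real.exp_pos _
      calc Real.exp (l * (g - a)) * Real.exp s + Real.exp (l * (g - a)) * Real.exp t
            - 2 * Real.exp (l * (g - a))
          = Real.exp (l * (g - a)) * (Real.exp s + Real.exp t - 2) := by ring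
        _ ≤ Real.exp (l * (g - a)) * (Q * ‖u‖ ^ 2) := mul_le_mul_of_nonneg_left hbr hgp.le
        _ ≤ E * (Q * ‖u‖ ^ 2) := mul_le_mul_of_nonneg_right hgE (by positivity)
        _ = _ := by ring
    have hsum : Φ (y + u) + Φ (y - u) - 2 * Φ y ≤ κ * (E * Q) * ‖u‖ ^ 2 := by
      have h1 := Finset.sum_le_sum hterm
      rw [Finset.sum_sub_distrib, Finset.sum_add_distrib, ← Finset.mul_sum, Finset.sum_const,
        nsmul_eq_mul] at h1
      show Φ (y + u) + Φ (y - u) - 2 * Φ y ≤ κ * (E * Q) * ‖u‖ ^ 2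
      calc Φ (y + u) + Φ (y - u) - 2 * Φ y ≤ κ * (E * Q * ‖u‖ ^ 2) := h1
        _ = _ := by ring
    have : κ * (E * Q) * ‖u‖ ^ 2 ≤ (κ * (E * Q) + 1) * ‖u‖ ^ 2 :=
      mul_le_mul_of_nonneg_right (by linarith) hu2
    show (Φ (y + u) - Φ 0) + (Φ (y - u) - Φ 0) - 2 * (Φ y - Φ 0) ≤ _
    linarith

/-- such a function forces reflexivity -/
theorem refl_of_psi {X : Type*} [NormedAddCommGroup X] [NormedSpace ℝ X] [CompleteSpace X]
    (ψ : X → ℝ) (r M σ B : ℝ) (hr : 0 < r) (hM : 0 < M) (hσ : 0 < σ) (hσr : σ ≤ r)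
    (hB : ∀ y, -B ≤ ψ y) (h0 : ψ 0 = 0) (h1 : ∀ y, r ≤ ‖y‖ → 1 ≤ ψ y)
    (h2 : ∀ y u, ‖y‖ ≤ r → ‖u‖ ≤ σ → ψ (y + u) + ψ (y - u) - 2 * ψ y ≤ M * ‖u‖ ^ 2) :
    Function.Surjective (inclusionInDoubleDual ℝ X) := by
  classical
  apply refl_of_dual
  let θ : StrongDual ℝ X → ℝ := fun F => ⨆ y : closedBall (0 : X) (2 * r), (F y - ψ y)
  have hne : Nonempty (closedBall (0 : X) (2 * r)) := ⟨⟨0, by simp [hr.le]⟩⟩
  have hbd : ∀ F : StrongDual ℝ X,
      BddAbove (Set.range fun y : closedBall (0 : X) (2 * r) => (F y - ψ y)) := by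
    intro F
    refine ⟨‖F‖ * (2 * r) + B, ?_⟩
    rintro _ ⟨y, rfl⟩
    have hy : ‖(y : X)‖ ≤ 2 * r := mem_closedBall_zero_iff.1 y.2
    have h3 := hB y
    have h4 : F y ≤ ‖F‖ * (2 * r) := (le_abs_self _).trans
      ((F.le_opNorm y).trans (mul_le_mul_of_nonneg_left hy (norm_nonneg _)))
    show F y - ψ y ≤ _
    linarith
  have hge : ∀ (F : StrongDual ℝ X) (y : X), ‖y‖ ≤ 2 * r → F y - ψ y ≤ θ F := by
    intro F y hy
    exact le_ciSup (hbd F) (⟨y, by simpa using hy⟩ : closedBall (0 : X) (2 * r))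
  have hle : ∀ (F : StrongDual ℝ X) (c : ℝ), (∀ y : X, ‖y‖ ≤ 2 * r → F y - ψ y ≤ c) → θ F ≤ c := by
    intro F c h
    exact ciSup_le fun y => h y (mem_closedBall_zero_iff.1 y.2)
  have hnear : ∀ (F : StrongDual ℝ X) (ε : ℝ), 0 < ε →
      ∃ y : X, ‖y‖ ≤ 2 * r ∧ θ F - ε ≤ F y - ψ y := by
    intro F ε hε
    obtain ⟨y, hy⟩ := exists_lt_of_lt_ciSup (show θ F - ε < θ F by linarith)
    exact ⟨y, mem_closedBall_zero_iff.1 y.2, hy.le⟩
  have hθ0 : ∀ F, 0 ≤ θ F := by
    intro F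
    have := hge F 0 (by simp [hr.le])
    rw [map_zero, h0, sub_zero] at this
    exact this
  set R : ℝ := min (1 / (4 * r)) (M * σ) with hR
  have hRp : 0 < R := lt_min (by positivity) (by positivity)
  refine refl_of_uc θ R (1 / M) 0 (R * (2 * r) + B) hRp (by positivity) (fun F _ => hθ0 F) ?_ ?_
  · intro F hF
    apply hle
    intro y hy
    have h3 := hB y
    have h4 : F y ≤ ‖F‖ * ‖y‖ := (le_abs_self _).trans (F.le_opNorm y)
    have h5 : ‖F‖ * ‖y‖ ≤ R * (2 * r) := mul_le_mul hF hy (norm_nonneg _) hRp.le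
    linarith
  · intro F H hF hH
    apply le_of_forall_pos_le_add
    intro ε hε
    -- near maximiser
    set ε₁ : ℝ := min (1 / 4) (ε / 4) with hε₁
    have hε₁p : 0 < ε₁ := lt_min (by norm_num) (by positivity)
    obtain ⟨y, hy, hyF⟩ := hnear F ε₁ hε₁p
    have hyr : ‖y‖ < r := by
      by_contra hcon
      push Not at hcon
      have h3 := h1 y hcon
      have h4 : F y ≤ ‖F‖ * ‖y‖ := (le_abs_self _).trans (F.le_opNorm y)
      have h5 : ‖F‖ * ‖y‖ ≤ 1 / (4 * r) * (2 * r) :=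
        mul_le_mul (hF.trans (min_le_left _ _)) hy (norm_nonneg _) (by positivity)
      have h6 : 1 / (4 * r) * (2 * r) = 1 / 2 := by field_simp; norm_num
      have h7 : ε₁ ≤ 1 / 4 := min_le_left _ _
      have h8 := hθ0 F
      linarith
    set t : ℝ := ‖H‖ / M with ht
    have ht0 : 0 ≤ t := by positivity
    have htσ : t ≤ σ := by
      rw [ht, div_le_iff₀ hM]
      have := hH.trans (min_le_right _ _)
      linarith
    set ε₂ : ℝ := ε / (4 * (σ + 1)) with hε₂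
    have hε₂p : 0 < ε₂ := by positivity
    obtain ⟨z, hz1, hz2⟩ := exists_unit_almost H ε₂ hε₂p
    have hu : ‖t • z‖ ≤ t := by
      rw [norm_smul, Real.norm_eq_abs, abs_of_nonneg ht0]
      calc t * ‖z‖ ≤ t * 1 := mul_le_mul_of_nonneg_left hz1 ht0
        _ = t := mul_one t
    have hHu : t * ‖H‖ - t * ε₂ ≤ H (t • z) := by
      rw [map_smul, smul_eq_mul]
      have := mul_le_mul_of_nonneg_left hz2 ht0
      linarith
    have g1 := hge (F + H) (y + t • z) (by
      have := norm_add_le y (t • z)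
      linarith)
    have g2 := hge (F - H) (y - t • z) (by
      have := norm_sub_le y (t • z)
      linarith)
    have e1 : (F + H) (y + t • z) = F y + F (t • z) + H y + H (t • z) := by
      have : (F + H) (y + t • z) = F (y + t • z) + H (y + t • z) := rfl
      rw [this, map_add, map_add]; ring
    have e2 : (F - H) (y - t • z) = F y - F (t • z) - H y + H (t • z) := by
      have : (F - H) (y - t • z) = F (y - t • z) - H (y - t • z) := rfl
      rw [this, map_sub, map_sub]; ring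
    rw [e1] at g1
    rw [e2] at g2
    have g3 := h2 y (t • z) hyr.le (hu.trans htσ)
    have g4 : M * ‖t • z‖ ^ 2 ≤ M * t ^ 2 :=
      mul_le_mul_of_nonneg_left (pow_le_pow_left₀ (norm_nonneg _) hu 2) hM.le
    have g5 : M * t ^ 2 = t * ‖H‖ := by
      rw [ht]; field_simp
    have g6 : 1 / M * ‖H‖ ^ 2 = t * ‖H‖ := by
      rw [ht]; field_simp
    have g7 : t * ε₂ ≤ ε / 4 := by
      have h3 : t * ε₂ ≤ (σ + 1) * ε₂ := mul_le_mul_of_nonneg_right (by linarith) hε₂p.le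
      have h4 : (σ + 1) * ε₂ = ε / 4 := by rw [hε₂]; field_simp
      linarith
    have g8 : ε₁ ≤ ε / 4 := min_le_right _ _
    linarith

end Pool.Helper570.NCS
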