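import Pool.Agent.Helper570.NCS.Oper

set_option autoImplicit false

namespace Pool.Helper570.NCS

open Metric Filter Topology NormedSpace

/-- levels -/
noncomputable def lev (n : ℕ) : ℝ := (1 - (1 / 2 : ℝ) ^ n) / 2

theorem lev_lt (n : ℕ) : lev n < lev (n + 1) := by
  unfold lev
  rw [pow_succ]
  have : (0 : ℝ) < (1 / 2 : ℝ) ^ n := by positivity
  linarith

theorem lev_lt_one (n : ℕ) : lev n < 1 := by
  unfold lev
  have : (0 : ℝ) < (1 / 2 : ℝ) ^ n := by positivity
  linarith

theorem lev_zero : lev 0 = 0 := by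
  unfold lev
  norm_num

/-- signed tail sums -/
noncomputable def tl {X : Type*} [NormedAddCommGroup X] [NormedSpace ℝ X] (H : ℕ → X) (n m : ℕ)
    (σ : ℕ → SignType) : X := ∑ i ∈ Finset.Ico n m, ((σ i : SignType) : ℝ) • H i

theorem wuc_of_signed {X : Type*} [NormedAddCommGroup X] [NormedSpace ℝ X] (u : ℕ → X) (R : ℝ)
    (h : ∀ (τ : ℕ → SignType) (J : ℕ), ‖∑ j ∈ Finset.range J, ((τ j : SignType) : ℝ) • u j‖ ≤ R) :
    WUC u R := by
  classical
  intro f F
  obtain ⟨J, hJ⟩ : ∃ J, F ⊆ Finset.range J := by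
    refine ⟨F.sup id + 1, fun i hi => ?_⟩
    exact Finset.mem_range.2 (Nat.lt_succ_of_le (Finset.le_sup (f := id) hi))
  have h1 : ∑ j ∈ F, |f (u j)| ≤ ∑ j ∈ Finset.range J, |f (u j)| :=
    Finset.sum_le_sum_of_subset_of_nonneg hJ (fun _ _ _ => abs_nonneg _)
  have h2 : ∑ j ∈ Finset.range J, |f (u j)|
      = f (∑ j ∈ Finset.range J, ((SignType.sign (f (u j)) : SignType) : ℝ) • u j) := by
    rw [map_sum]
    apply Finset.sum_congr rfl
    intro j _
    rw [map_smul, smul_eq_mul, sign_mul_self]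
  rw [h2] at h1
  have h3 := h (fun j => SignType.sign (f (u j))) J
  calc ∑ j ∈ F, |f (u j)|
      ≤ f (∑ j ∈ Finset.range J, ((SignType.sign (f (u j)) : SignType) : ℝ) • u j) := h1
    _ ≤ ‖f‖ * ‖∑ j ∈ Finset.range J, ((SignType.sign (f (u j)) : SignType) : ℝ) • u j‖ :=
        (le_abs_self _).trans (f.le_opNorm _)
    _ ≤ ‖f‖ * R := mul_le_mul_of_nonneg_left h3 (norm_nonneg _)
    _ = R * ‖f‖ := mul_comm _ _

/-- The greedy dichotomy of Fabian, Whitfield and Zizler. -/
theorem dichotomy {X : Type*} [NormedAddCommGroup X] [NormedSpace ℝ X] [CompleteSpace X]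
    (f : X → ℝ) (heven : ∀ x, f (-x) = f x) (h0 : f 0 ≤ 0) (R : ℝ)
    (hR : ∀ x, f x < 1 → ‖x‖ ≤ R) :
    (∃ (u : ℕ → X) (δ : ℝ), 0 < δ ∧ (∀ n, δ ≤ ‖u n‖) ∧ WUC u R) ∨
    (∃ 𝒦 : Set X, IsCompact 𝒦 ∧ ∀ ρ : ℝ, 0 < ρ → ∃ (K : Finset X) (a b : ℝ), a < b ∧
      (∀ k ∈ K, k ∈ 𝒦) ∧ (∀ k ∈ K, f k ≤ a) ∧ ∀ h, ρ ≤ ‖h‖ → ∃ k ∈ K, b < f (k + h)) := by
  classical
  have hpick : ∀ (S : Set X) (b : ℝ), (0 : X) ∈ S → (∀ k ∈ S, f k ≤ b) → b < 1 →
      ∃ h, (∀ k ∈ S, f (k + h) ≤ b) ∧ ∀ z, (∀ k ∈ S, f (k + z) ≤ b) → ‖z‖ ≤ 2 * ‖h‖ := by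
    intro S b hS0 hSb hb
    let L : Set X := {z | ∀ k ∈ S, f (k + z) ≤ b}
    have hL0 : (0 : X) ∈ L := by
      intro k hk
      rw [add_zero]; exact hSb k hk
    have hLR : ∀ z ∈ L, ‖z‖ ≤ R := by
      intro z hz
      apply hR
      have := hz 0 hS0
      rw [zero_add] at this
      linarith
    have hne : ((fun z => ‖z‖) '' L).Nonempty := ⟨_, 0, hL0, rfl⟩
    have hbd : BddAbove ((fun z => ‖z‖) '' L) := ⟨R, by rintro _ ⟨z, hz, rfl⟩; exact hLR z hz⟩
    set s := sSup ((fun z => ‖z‖) '' L) with hs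
    by_cases hs0 : s ≤ 0
    · refine ⟨0, hL0, fun z hz => ?_⟩
      have := le_csSup hbd ⟨z, hz, rfl⟩
      rw [norm_zero, mul_zero]
      exact this.trans hs0
    · push Not at hs0
      obtain ⟨_, ⟨h, hh, rfl⟩, hh2⟩ := exists_lt_of_lt_csSup hne (show s / 2 < s by linarith)
      refine ⟨h, hh, fun z hz => ?_⟩
      have := le_csSup hbd ⟨z, hz, rfl⟩
      simp only at hh2 this
      linarith
  choose! pk hpk1 hpk2 using hpick
  let K : ℕ → Set X := fun n => Nat.rec {0} (fun n S => {x | x ∈ S ∨ (∃ k ∈ S, x = k + pk S (lev (n + 1)))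
    ∨ (∃ k ∈ S, x = k - pk S (lev (n + 1)))}) n
  let H : ℕ → X := fun n => pk (K n) (lev (n + 1))
  have hK0 : K 0 = {0} := rfl
  have hKs : ∀ n x, x ∈ K (n + 1) ↔ (x ∈ K n ∨ (∃ k ∈ K n, x = k + H n) ∨
      (∃ k ∈ K n, x = k - H n)) := fun n x => Iff.rfl
  have hinv : ∀ n, (0 : X) ∈ K n ∧ (K n).Finite ∧ (∀ x ∈ K n, -x ∈ K n) ∧
      (∀ x ∈ K n, f x ≤ lev n) := by
    intro n
    induction n with
    | zero =>
      rw [hK0]
      refine ⟨rfl, Set.finite_singleton _, ?_, ?_⟩
      · intro x hx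
        rw [Set.mem_singleton_iff] at hx
        rw [hx, neg_zero]; rfl
      · intro x hx
        rw [Set.mem_singleton_iff] at hx
        rw [hx, lev_zero]; exact h0
    | succ n ih =>
      obtain ⟨i1, i2, i3, i4⟩ := ih
      have i4' : ∀ x ∈ K n, f x ≤ lev (n + 1) := fun x hx => (i4 x hx).trans (lev_lt n).le
      have hH : ∀ k ∈ K n, f (k + H n) ≤ lev (n + 1) :=
        hpk1 (K n) (lev (n + 1)) i1 i4' (lev_lt_one _)
      refine ⟨?_, ?_, ?_, ?_⟩
      · rw [hKs]; exact Or.inl i1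
      · have : K (n + 1) = K n ∪ ((fun k => k + H n) '' K n ∪ (fun k => k - H n) '' K n) := by
          ext x
          rw [hKs, Set.mem_union, Set.mem_union, Set.mem_image, Set.mem_image]
          constructor
          · rintro (h | ⟨k, hk, rfl⟩ | ⟨k, hk, rfl⟩)
            · exact Or.inl h
            · exact Or.inr (Or.inl ⟨k, hk, rfl⟩)
            · exact Or.inr (Or.inr ⟨k, hk, rfl⟩)
          · rintro (h | ⟨k, hk, rfl⟩ | ⟨k, hk, rfl⟩)
            · exact Or.inl h
            · exact Or.inr (Or.inl ⟨k, hk, rfl⟩)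
            · exact Or.inr (Or.inr ⟨k, hk, rfl⟩)
        rw [this]
        exact i2.union ((i2.image _).union (i2.image _))
      · intro x hx
        rw [hKs] at hx ⊢
        rcases hx with h | ⟨k, hk, rfl⟩ | ⟨k, hk, rfl⟩
        · exact Or.inl (i3 x h)
        · exact Or.inr (Or.inr ⟨-k, i3 k hk, by abel⟩)
        · exact Or.inr (Or.inl ⟨-k, i3 k hk, by abel⟩)
      · intro x hx
        rw [hKs] at hx
        rcases hx with h | ⟨k, hk, rfl⟩ | ⟨k, hk, rfl⟩
        · exact i4' x h
        · exact hH k hk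
        · have h1 := hH (-k) (i3 k hk)
          rw [← heven] at h1
          rwa [show -(-k + H n) = k - H n by abel] at h1
  have hmono : ∀ n m, n ≤ m → K n ⊆ K m := by
    intro n m hnm
    induction m, hnm using Nat.le_induction with
    | base => exact subset_rfl
    | succ m _ ih => exact fun x hx => (hKs m x).2 (Or.inl (ih hx))
  have hadd : ∀ n m, n ≤ m → ∀ x ∈ K n, ∀ σ : ℕ → SignType, x + tl H n m σ ∈ K m := by
    intro n m hnm x hx σ
    induction m, hnm using Nat.le_induction with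
    | base => simp only [tl, Finset.Ico_self, Finset.sum_empty, add_zero]; exact hx
    | succ m hm ih =>
      have e : x + tl H n (m + 1) σ = (x + tl H n m σ) + ((σ m : SignType) : ℝ) • H m := by
        simp only [tl]
        rw [Finset.sum_Ico_succ_top hm, add_assoc]
      rw [e, hKs]
      rcases hσ : σ m with _ | _ | _
      · left
        have : ((SignType.zero : SignType) : ℝ) = 0 := rfl
        rw [this, zero_smul, add_zero]
        exact ih
      · right; right
        refine ⟨_, ih, ?_⟩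
        have : ((SignType.neg : SignType) : ℝ) = -1 := rfl
        rw [this, neg_one_smul, sub_eq_add_neg]
      · right; left
        refine ⟨_, ih, ?_⟩
        have : ((SignType.pos : SignType) : ℝ) = 1 := rfl
        rw [this, one_smul]
  have hdec : ∀ n m, n ≤ m → ∀ x ∈ K m, ∃ k ∈ K n, ∃ σ : ℕ → SignType, x = k + tl H n m σ := by
    intro n m hnm
    induction m, hnm using Nat.le_induction with
    | base =>
      intro x hx
      exact ⟨x, hx, fun _ => 0, by simp [tl]⟩
    | succ m hm ih =>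
      intro x hx
      have haux : ∀ (σ : ℕ → SignType) (s : SignType),
          tl H n (m + 1) (Function.update σ m s) = tl H n m σ + ((s : SignType) : ℝ) • H m := by
        intro σ s
        simp only [tl]
        rw [Finset.sum_Ico_succ_top hm, Function.update_self]
        congr 1
        apply Finset.sum_congr rfl
        intro i hi
        rw [Function.update_of_ne (Finset.mem_Ico.1 hi).2.ne]
      rw [hKs] at hx
      rcases hx with h | ⟨y, hy, rfl⟩ | ⟨y, hy, rfl⟩
      · obtain ⟨k, hk, σ, hσ⟩ := ih x h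
        refine ⟨k, hk, Function.update σ m 0, ?_⟩
        rw [haux, SignType.coe_zero, zero_smul, add_zero]
        exact hσ
      · obtain ⟨k, hk, σ, hσ⟩ := ih y hy
        refine ⟨k, hk, Function.update σ m 1, ?_⟩
        rw [haux, SignType.coe_one, one_smul, ← add_assoc, ← hσ]
      · obtain ⟨k, hk, σ, hσ⟩ := ih y hy
        refine ⟨k, hk, Function.update σ m (-1), ?_⟩
        rw [haux, SignType.coe_neg_one, neg_one_smul, ← add_assoc, ← hσ, sub_eq_add_neg]
  by_cases hcase : ∃ δ : ℝ, 0 < δ ∧ ∀ n, ∃ m, n ≤ m ∧ ∃ σ : ℕ → SignType, δ ≤ ‖tl H n m σ‖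
  · left
    obtain ⟨δ, hδ, hc⟩ := hcase
    choose mm hmm σ hσ using hc
    let s : ℕ → ℕ := fun j => Nat.rec 0 (fun _ n => mm n) j
    have hs : ∀ j, s (j + 1) = mm (s j) := fun j => rfl
    let u : ℕ → X := fun j => tl H (s j) (s (j + 1)) (σ (s j))
    refine ⟨u, δ, hδ, ?_, ?_⟩
    · intro j
      show δ ≤ ‖tl H (s j) (s (j + 1)) (σ (s j))‖
      rw [hs]
      exact hσ (s j)
    · apply wuc_of_signed
      intro τ J
      have hmem : ∑ j ∈ Finset.range J, ((τ j : SignType) : ℝ) • u j ∈ K (s J) := by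
        induction J with
        | zero => simpa using (hinv _).1
        | succ J ih =>
          rw [Finset.sum_range_succ]
          have h1 := hadd (s J) (s (J + 1)) (by rw [hs]; exact hmm _) _ ih
            (fun i => τ J * σ (s J) i)
          have h2 : ((τ J : SignType) : ℝ) • u J
              = tl H (s J) (s (J + 1)) (fun i => τ J * σ (s J) i) := by
            simp only [u, tl, Finset.smul_sum, smul_smul, SignType.coe_mul]
          rw [h2]
          exact h1
      apply hR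
      exact lt_of_le_of_lt ((hinv _).2.2.2 _ hmem) (lev_lt_one _)
  · right
    push Not at hcase
    have htb : TotallyBounded (⋃ n, K n) := by
      rw [Metric.totallyBounded_iff]
      intro ε hε
      obtain ⟨n, hn⟩ := hcase ε hε
      refine ⟨K n, (hinv n).2.1, ?_⟩
      intro x hx
      obtain ⟨m, hm⟩ := Set.mem_iUnion.1 hx
      rw [Set.mem_iUnion₂]
      rcases le_total m n with h | h
      · exact ⟨x, hmono m n h hm, mem_ball_self hε⟩
      · obtain ⟨k, hk, σ, hσ⟩ := hdec n m h x hm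
        refine ⟨k, hk, ?_⟩
        rw [mem_ball, dist_eq_norm, hσ, add_sub_cancel_left]
        exact hn m h σ
    refine ⟨closure (⋃ n, K n), ?_, ?_⟩
    · exact htb.closure.isCompact_of_isClosed isClosed_closure
    · intro ρ hρ
      obtain ⟨n, hn⟩ := hcase (ρ / 2) (by positivity)
      refine ⟨(hinv n).2.1.toFinset, lev n, lev (n + 1), lev_lt n, ?_, ?_, ?_⟩
      · intro k hk
        exact subset_closure (Set.mem_iUnion.2 ⟨n, (Set.Finite.mem_toFinset _).1 hk⟩)
      · intro k hk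
        exact (hinv n).2.2.2 k ((Set.Finite.mem_toFinset _).1 hk)
      · intro h hh
        by_contra hcon
        push Not at hcon
        have h1 := hpk2 (K n) (lev (n + 1)) (hinv n).1
          (fun x hx => ((hinv n).2.2.2 x hx).trans (lev_lt n).le) (lev_lt_one _) h
          (fun k hk => hcon k ((Set.Finite.mem_toFinset _).2 hk))
        have h2 := hn (n + 1) (Nat.le_succ n) (fun _ => 1)
        have h3 : tl H n (n + 1) (fun _ => 1) = H n := by
          simp [tl]
        rw [h3] at h2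
        change ‖h‖ ≤ 2 * ‖H n‖ at h1
        linarith

end Pool.Helper570.NCS
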