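import Mathlib

set_option autoImplicit false

namespace Pool.Helper570.NCS

open Metric Filter Topology

/-- Ekeland principle, weak form -/
theorem ekeland {X : Type*} [MetricSpace X] [CompleteSpace X] (x₀ : X) (F : X → ℝ)
    (hF : Continuous F) (b : ℝ) (hb : ∀ x, b ≤ F x) (ε : ℝ) (hε : 0 < ε) :
    ∃ v, ∀ x, F v ≤ F x + ε * dist x v := by
  classical
  let S : X → Set X := fun x => {y | F y + ε * dist y x ≤ F x}
  have hS : ∀ x y, y ∈ S x ↔ F y + ε * dist y x ≤ F x := fun x y => Iff.rfl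
  have hself : ∀ x, x ∈ S x := by
    intro x; rw [hS, dist_self, mul_zero, add_zero]
  have htrans : ∀ x y z, y ∈ S x → z ∈ S y → z ∈ S x := by
    intro x y z hy hz
    rw [hS] at *
    have h1 := mul_le_mul_of_nonneg_left (dist_triangle z y x) hε.le
    rw [mul_add] at h1
    linarith
  have hcl : ∀ x, IsClosed (S x) := by
    intro x
    exact isClosed_le (hF.add (continuous_const.mul (continuous_id.dist continuous_const)))
      continuous_const
  have hstep : ∀ (x : X) (n : ℕ), ∃ y ∈ S x, ∀ z ∈ S x, F y ≤ F z + (1 / 2 : ℝ) ^ n := by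
    intro x n
    have hne : (F '' S x).Nonempty := ⟨F x, x, hself x, rfl⟩
    have hbd : BddBelow (F '' S x) := ⟨b, by rintro _ ⟨y, _, rfl⟩; exact hb y⟩
    obtain ⟨_, ⟨y, hy, rfl⟩, hy2⟩ := exists_lt_of_csInf_lt hne
      (show sInf (F '' S x) < sInf (F '' S x) + (1 / 2 : ℝ) ^ n by
        have : (0 : ℝ) < (1 / 2 : ℝ) ^ n := by positivity
        linarith)
    refine ⟨y, hy, fun z hz => ?_⟩
    have := csInf_le hbd ⟨z, hz, rfl⟩
    linarith
  choose st hst1 hst2 using hstep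
  let s : ℕ → X := fun n => Nat.rec x₀ (fun n x => st x n) n
  have hs : ∀ n, s (n + 1) = st (s n) n := fun n => rfl
  have hin : ∀ n m, n ≤ m → s m ∈ S (s n) := by
    intro n m hnm
    induction m, hnm using Nat.le_induction with
    | base => exact hself _
    | succ m _ ih => exact htrans _ _ _ ih (by rw [hs]; exact hst1 _ _)
  have hsmall : ∀ n z, z ∈ S (s (n + 1)) → dist z (s (n + 1)) ≤ (1 / 2 : ℝ) ^ n / ε := by
    intro n z hz
    have h1 : z ∈ S (s n) := htrans _ _ _ (hin n (n + 1) (Nat.le_succ n)) hz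
    have h2 := hst2 (s n) n z h1
    rw [← hs] at h2
    rw [hS] at hz
    rw [le_div_iff₀ hε]
    linarith
  have hlim0 : Tendsto (fun n : ℕ => (1 / 2 : ℝ) ^ n / ε) atTop (𝓝 0) := by
    have := (tendsto_pow_atTop_nhds_zero_of_lt_one (by norm_num : (0 : ℝ) ≤ 1 / 2)
      (by norm_num : (1 / 2 : ℝ) < 1)).div_const ε
    simpa using this
  have hc : CauchySeq s := by
    rw [Metric.cauchySeq_iff']
    intro δ hδ
    obtain ⟨n, hn⟩ := (hlim0.eventually (gt_mem_nhds hδ)).exists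
    refine ⟨n + 1, fun m hm => ?_⟩
    exact lt_of_le_of_lt (hsmall n _ (hin _ _ hm)) hn
  obtain ⟨v, hv⟩ := cauchySeq_tendsto_of_complete hc
  have hvS : ∀ n, v ∈ S (s n) := by
    intro n
    apply (hcl (s n)).mem_of_tendsto hv
    filter_upwards [eventually_ge_atTop n] with m hm
    exact hin n m hm
  refine ⟨v, fun x => ?_⟩
  by_contra hcon
  push Not at hcon
  have hxS : x ∈ S v := hcon.le
  have h1 : ∀ n, dist x (s (n + 1)) ≤ (1 / 2 : ℝ) ^ n / ε := fun n =>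
    hsmall n x (htrans _ _ _ (hvS (n + 1)) hxS)
  have h2 : Tendsto (fun n => s (n + 1)) atTop (𝓝 x) := by
    rw [tendsto_iff_dist_tendsto_zero]
    refine squeeze_zero (fun _ => dist_nonneg) (fun n => ?_) hlim0
    rw [dist_comm]
    exact h1 n
  have h3 : x = v := tendsto_nhds_unique h2 (hv.comp (tendsto_add_atTop_nat 1))
  rw [h3, dist_self, mul_zero, add_zero] at hcon
  exact lt_irrefl _ hcon

theorem second_diff_of_differentiableAt {X : Type*} [NormedAddCommGroup X] [NormedSpace ℝ X]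
    (g : X → ℝ) (x : X) (hg : DifferentiableAt ℝ g x) (ε : ℝ) (hε : 0 < ε) :
    ∃ τ : ℝ, 0 < τ ∧ ∀ h : X, ‖h‖ ≤ τ → g (x + h) + g (x - h) - 2 * g x ≤ ε * ‖h‖ := by
  have h1 := hg.hasFDerivAt
  rw [hasFDerivAt_iff_isLittleO_nhds_zero] at h1
  have h2 := h1.def (show 0 < ε / 2 by positivity)
  rw [Metric.eventually_nhds_iff] at h2
  obtain ⟨τ, hτ, h3⟩ := h2
  refine ⟨τ / 2, by positivity, fun h hh => ?_⟩
  have h4 := h3 (y := h) (by rw [dist_zero_right]; linarith)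
  have h5 := h3 (y := -h) (by rw [dist_zero_right, norm_neg]; linarith)
  rw [Real.norm_eq_abs] at h4 h5
  rw [norm_neg, map_neg] at h5
  have h6 := (abs_le.1 h4).2
  have h7 := (abs_le.1 h5).2
  rw [← sub_eq_add_neg] at h7
  linarith

theorem second_diff_sq {X : Type*} [NormedAddCommGroup X] [NormedSpace ℝ X]
    (N : Seminorm ℝ X) (C : ℝ) (hN2 : ∀ x, N x ≤ C * ‖x‖)
    (hd : ∀ x, x ≠ 0 → DifferentiableAt ℝ N x) (x : X) (ε : ℝ) (hε : 0 < ε) :
    ∃ τ : ℝ, 0 < τ ∧ ∀ h : X, ‖h‖ ≤ τ →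
      N (x + h) ^ 2 + N (x - h) ^ 2 - 2 * N x ^ 2 ≤ ε * ‖h‖ := by
  by_cases hx : x = 0
  · refine ⟨ε / (2 * C ^ 2 + 1), by positivity, fun h hh => ?_⟩
    rw [hx, zero_add, zero_sub, map_zero, map_neg_eq_map]
    have h1 : N h ^ 2 ≤ (C * ‖h‖) ^ 2 := pow_le_pow_left₀ (apply_nonneg N h) (hN2 h) 2
    have h2 : (2 * C ^ 2 + 1) * ‖h‖ ≤ ε := by
      rw [le_div_iff₀ (by positivity)] at hh
      linarith
    have h3 := mul_le_mul_of_nonneg_right h2 (norm_nonneg h)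
    nlinarith [norm_nonneg h]
  · exact second_diff_of_differentiableAt (fun y => N y ^ 2) x ((hd x hx).pow 2) ε hε

/-- points of almost differentiability -/
theorem exists_almost_smooth {X : Type*} [NormedAddCommGroup X] [NormedSpace ℝ X] [CompleteSpace X]
    (N : Seminorm ℝ X) (c C : ℝ) (hc : 0 < c) (hN1 : ∀ x, c * ‖x‖ ≤ N x)
    (hN2 : ∀ x, N x ≤ C * ‖x‖) (hNc : Continuous N)
    (hd : ∀ x, x ≠ 0 → DifferentiableAt ℝ N x)
    (p : X → ℝ) (hp : Continuous p) (hp1 : ∀ x, p x ≤ ‖x‖) (ε : ℝ) (hε : 0 < ε) :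
    ∃ (v : X) (τ : ℝ), 0 < τ ∧ ∀ h : X, ‖h‖ ≤ τ → p (v + h) + p (v - h) - 2 * p v ≤ ε * ‖h‖ := by
  obtain ⟨v, hv⟩ := ekeland (0 : X) (fun x => N x ^ 2 - p x) ((hNc.pow 2).sub hp)
    (-(1 / c ^ 2)) (by
      intro x
      have h1 : (c * ‖x‖) ^ 2 ≤ N x ^ 2 := pow_le_pow_left₀ (by positivity) (hN1 x) 2
      have h2 := hp1 x
      have h3 : 0 ≤ (c * ‖x‖ - 1 / (2 * c)) ^ 2 := sq_nonneg _
      have h4 : (c * ‖x‖ - 1 / (2 * c)) ^ 2 = (c * ‖x‖) ^ 2 - ‖x‖ + 1 / (4 * c ^ 2) := by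
        field_simp; ring
      have h5 : 1 / (4 * c ^ 2) ≤ 1 / c ^ 2 := by
        apply one_div_le_one_div_of_le (by positivity)
        nlinarith [sq_nonneg c]
      linarith) (ε / 4) (by positivity)
  obtain ⟨τ, hτ, h1⟩ := second_diff_sq N C hN2 hd v (ε / 4) (by positivity)
  refine ⟨v, τ, hτ, fun h hh => ?_⟩
  have h2 := hv (v + h)
  have h3 := hv (v - h)
  have h4 := h1 h hh
  rw [dist_eq_norm, add_sub_cancel_left] at h2
  rw [dist_eq_norm, sub_sub_cancel_left, norm_neg] at h3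

  have h5 : 0 ≤ ε * ‖h‖ := by positivity
  linarith

end Pool.Helper570.NCS
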