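import Mathlib

set_option autoImplicit false

namespace Pool.Helper570.NCS

open Metric Filter Topology NormedSpace

/-- the even bump built from a norm -/
noncomputable def bmp {X : Type*} [NormedAddCommGroup X] [NormedSpace ℝ X] (N : Seminorm ℝ X)
    (x : X) : ℝ := Real.smoothTransition (2 * N x - 1)

section
variable {X : Type*} [NormedAddCommGroup X] [NormedSpace ℝ X] (N : Seminorm ℝ X)

theorem bmp_neg (x : X) : bmp N (-x) = bmp N x := by
  unfold bmp; rw [map_neg_eq_map]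

theorem bmp_zero : bmp N 0 = 0 := by
  unfold bmp; rw [map_zero]
  apply Real.smoothTransition.zero_of_nonpos
  norm_num

theorem bmp_nonneg (x : X) : 0 ≤ bmp N x := Real.smoothTransition.nonneg _

theorem bmp_le_one (x : X) : bmp N x ≤ 1 := Real.smoothTransition.le_one _

theorem lt_one_of_bmp (x : X) (h : bmp N x < 1) : N x < 1 := by
  by_contra hcon
  push Not at hcon
  have : bmp N x = 1 := Real.smoothTransition.one_of_one_le (by linarith)
  linarith

theorem bmp_contDiff (hNc : Continuous N) (hN : ContDiffOn ℝ 2 N {0}ᶜ) :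
    ContDiff ℝ 2 (bmp N) := by
  rw [contDiff_iff_contDiffAt]
  intro x
  by_cases hx : x = 0
  · subst hx
    have h1 : bmp N =ᶠ[𝓝 0] fun _ => (0 : ℝ) := by
      have h2 : ∀ᶠ y in 𝓝 (0 : X), N y < 1 / 2 := by
        have := hNc.tendsto 0
        rw [map_zero] at this
        exact this.eventually (gt_mem_nhds (by norm_num))
      filter_upwards [h2] with y hy
      exact Real.smoothTransition.zero_of_nonpos (by linarith)
    exact contDiffAt_const.congr_of_eventuallyEq h1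
  · have h1 : ContDiffAt ℝ 2 N x := hN.contDiffAt (isOpen_compl_singleton.mem_nhds hx)
    have h2 : ContDiffAt ℝ 2 (fun y => 2 * N y - 1) x :=
      (contDiffAt_const.mul h1).sub contDiffAt_const
    exact (Real.smoothTransition.contDiff.contDiffAt).comp x h2

end

/-- local control of first and second differences -/
theorem local_control {X : Type*} [NormedAddCommGroup X] [NormedSpace ℝ X]
    (f : X → ℝ) (hf : ContDiff ℝ 2 f) (x : X) :
    ∃ r : ℝ, 0 < r ∧ ∃ M : ℝ, 0 < M ∧ ∀ w : X, ‖w - x‖ < 2 * r → ∀ u : X, ‖u‖ ≤ r →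
      |f (w + u) - f w| ≤ M * ‖u‖ ∧ f (w + u) + f (w - u) - 2 * f w ≤ M * ‖u‖ ^ 2 := by
  have hf1 : ContDiffAt ℝ 1 f x := (hf.of_le (by norm_num)).contDiffAt
  obtain ⟨L, t1, ht1, hL⟩ := hf1.exists_lipschitzOnWith
  have hf2 : ContDiff ℝ 1 (fderiv ℝ f) := hf.fderiv_right (by norm_num)
  obtain ⟨M, t2, ht2, hM⟩ := hf2.contDiffAt.exists_lipschitzOnWith (x := x)
  obtain ⟨r, hr, hball⟩ := Metric.mem_nhds_iff.1 (Filter.inter_mem ht1 ht2)
  refine ⟨r / 3, by positivity, (L : ℝ) + 2 * M + 1, by positivity, ?_⟩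
  intro w hw u hu
  have hin : ∀ z : X, ‖z - w‖ ≤ ‖u‖ → z ∈ ball x r := by
    intro z hz
    rw [mem_ball, dist_eq_norm]
    have h1 : ‖z - x‖ ≤ ‖z - w‖ + ‖w - x‖ := norm_sub_le_norm_sub_add_norm_sub _ _ _
    linarith
  have hw0 : w ∈ ball x r := hin w (by simp)
  have hw1 : w + u ∈ ball x r := hin (w + u) (by simp)
  have hw2 : w - u ∈ ball x r := hin (w - u) (by simp)
  have hL0 : (0 : ℝ) ≤ L := L.2
  have hM0 : (0 : ℝ) ≤ M := M.2
  constructor
  · have h1 := hL.dist_le_mul _ (hball hw1).1 _ (hball hw0).1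
    rw [Real.dist_eq, dist_eq_norm, add_sub_cancel_left] at h1
    refine h1.trans (mul_le_mul_of_nonneg_right ?_ (norm_nonneg _))
    linarith
  · have hder : ∀ z : X, HasFDerivAt f (fderiv ℝ f z) z := fun z =>
      ((hf.differentiable (by norm_num)) z).hasFDerivAt
    have key : ∀ z : X, ‖z - w‖ ≤ ‖u‖ → ‖f z - f w - (fderiv ℝ f w) (z - w)‖
        ≤ (M : ℝ) * ‖u‖ * ‖z - w‖ := by
      intro z hz
      refine (convex_closedBall w ‖u‖).norm_image_sub_le_of_norm_hasFDerivWithin_le'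
        (f' := fderiv ℝ f) (φ := fderiv ℝ f w) (C := (M : ℝ) * ‖u‖)
        (fun y _ => (hder y).hasFDerivWithinAt) ?_ (mem_closedBall_self (norm_nonneg _)) ?_
      · intro y hy
        rw [mem_closedBall, dist_eq_norm] at hy
        have h1 := hM.dist_le_mul _ (hball (hin y hy)).2 _ (hball hw0).2
        rw [dist_eq_norm, dist_eq_norm] at h1
        exact h1.trans (mul_le_mul_of_nonneg_left hy hM0)
      · rw [mem_closedBall, dist_eq_norm]; exact hz
    have h1 := key (w + u) (by simp)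
    have h2 := key (w - u) (by simp)
    rw [add_sub_cancel_left, Real.norm_eq_abs] at h1
    rw [sub_sub_cancel_left, norm_neg, map_neg, Real.norm_eq_abs] at h2
    have h3 := (abs_le.1 h1).2
    have h4 := (abs_le.1 h2).2
    have h5 : 0 ≤ ‖u‖ ^ 2 := sq_nonneg _
    nlinarith

/-- uniform control near a compact set -/
theorem compact_control {X : Type*} [NormedAddCommGroup X] [NormedSpace ℝ X]
    (f : X → ℝ) (hf : ContDiff ℝ 2 f) (𝒦 : Set X) (h𝒦 : IsCompact 𝒦) :
    ∃ r : ℝ, 0 < r ∧ ∃ M : ℝ, 0 < M ∧ ∀ k ∈ 𝒦, ∀ y : X, ‖y‖ ≤ r → ∀ u : X, ‖u‖ ≤ r →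
      |f (k + y + u) - f (k + y)| ≤ M * ‖u‖ ∧
      f (k + y + u) + f (k + y - u) - 2 * f (k + y) ≤ M * ‖u‖ ^ 2 := by
  refine h𝒦.induction_on (p := fun s => ∃ r : ℝ, 0 < r ∧ ∃ M : ℝ, 0 < M ∧ ∀ k ∈ s, ∀ y : X,
      ‖y‖ ≤ r → ∀ u : X, ‖u‖ ≤ r → |f (k + y + u) - f (k + y)| ≤ M * ‖u‖ ∧
      f (k + y + u) + f (k + y - u) - 2 * f (k + y) ≤ M * ‖u‖ ^ 2) ?_ ?_ ?_ ?_
  · exact ⟨1, one_pos, 1, one_pos, fun k hk => absurd hk (Set.notMem_empty k)⟩
  · rintro s t hst ⟨r, hr, M, hM, h⟩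
    exact ⟨r, hr, M, hM, fun k hk => h k (hst hk)⟩
  · rintro s t ⟨r, hr, M, hM, h⟩ ⟨r', hr', M', hM', h'⟩
    refine ⟨min r r', lt_min hr hr', max M M', lt_max_of_lt_left hM, ?_⟩
    intro k hk y hy u hu
    have hu2 : 0 ≤ ‖u‖ ^ 2 := sq_nonneg _
    rcases hk with hk | hk
    · obtain ⟨a1, a2⟩ := h k hk y (hy.trans (min_le_left _ _)) u (hu.trans (min_le_left _ _))
      exact ⟨a1.trans (mul_le_mul_of_nonneg_right (le_max_left _ _) (norm_nonneg _)),
        a2.trans (mul_le_mul_of_nonneg_right (le_max_left _ _) hu2)⟩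
    · obtain ⟨a1, a2⟩ := h' k hk y (hy.trans (min_le_right _ _)) u (hu.trans (min_le_right _ _))
      exact ⟨a1.trans (mul_le_mul_of_nonneg_right (le_max_right _ _) (norm_nonneg _)),
        a2.trans (mul_le_mul_of_nonneg_right (le_max_right _ _) hu2)⟩
  · intro x _
    obtain ⟨r, hr, M, hM, h⟩ := local_control f hf x
    refine ⟨ball x r, mem_nhdsWithin_of_mem_nhds (ball_mem_nhds x hr), r, hr, M, hM, ?_⟩
    intro k hk y hy u hu
    apply h (k + y) _ u hu
    rw [mem_ball, dist_eq_norm] at hk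
    have h1 : ‖k + y - x‖ ≤ ‖k - x‖ + ‖y‖ := by
      rw [show k + y - x = (k - x) + y by abel]
      exact norm_add_le _ _
    linarith

end Pool.Helper570.NCS
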