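import Mathlib

set_option autoImplicit false

namespace Pool.Helper570.NCS

/-- An injective bounded operator which is not bounded below turns a smooth equivalent norm into a
smooth norm which is not complete. -/
theorem noncomplete_of_op {X : Type*} [NormedAddCommGroup X] [NormedSpace ℝ X] [CompleteSpace X]
    (N : Seminorm ℝ X) (c C : ℝ) (hc : 0 < c) (hN1 : ∀ x, c * ‖x‖ ≤ N x)
    (hN2 : ∀ x, N x ≤ C * ‖x‖) (k : WithTop ℕ∞) (hN : ContDiffOn ℝ k N {0}ᶜ)
    (T : X →L[ℝ] X) (hinj : ∀ x, T x = 0 → x = 0)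
    (hT : ∀ δ : ℝ, 0 < δ → ∃ x : X, ‖T x‖ < δ * ‖x‖) :
    ∃ p : Seminorm ℝ X, (∀ x, p x = 0 → x = 0) ∧ ContDiffOn ℝ k p {0}ᶜ ∧
      ¬ (∀ s : ℕ → X, (∀ ε : ℝ, 0 < ε → ∃ n : ℕ, ∀ i ≥ n, ∀ j ≥ n, p (s i - s j) < ε) →
        ∃ x : X, ∀ ε : ℝ, 0 < ε → ∃ n : ℕ, ∀ i ≥ n, p (s i - x) < ε) := by
  have hp : ∀ x, (N.comp T.toLinearMap) x = N (T x) := fun x => rfl
  refine ⟨N.comp T.toLinearMap, ?_, ?_, ?_⟩
  · intro x hx
    rw [hp] at hx
    apply hinj
    have h1 := hN1 (T x)
    rw [hx] at h1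
    have h2 : ‖T x‖ ≤ 0 := by
      by_contra h3
      push Not at h3
      have := mul_pos hc h3
      linarith
    exact norm_le_zero_iff.1 h2
  · have h1 : ContDiffOn ℝ k (fun x => N (T x)) {0}ᶜ := by
      refine hN.comp (T.contDiff.contDiffOn) ?_
      intro x hx
      simp only [Set.mem_compl_iff, Set.mem_singleton_iff] at hx ⊢
      exact fun h => hx (hinj x h)
    exact h1
  · intro hcomp
    have hCpos : 0 ≤ |C| + 1 := by positivity
    have hN2' : ∀ x, N x ≤ (|C| + 1) * ‖x‖ := by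
      intro x
      refine (hN2 x).trans (mul_le_mul_of_nonneg_right ?_ (norm_nonneg _))
      have := le_abs_self C
      linarith
    have hcl : IsClosed (Set.range T) := by
      apply IsSeqClosed.isClosed
      intro y z hy hyz
      choose s hs using hy
      obtain ⟨x, hx⟩ := hcomp s (by
        intro ε hε
        have h1 := hyz.cauchySeq
        rw [Metric.cauchySeq_iff] at h1
        obtain ⟨n, hn⟩ := h1 (ε / (|C| + 1)) (by positivity)
        refine ⟨n, fun i hi j hj => ?_⟩
        have h2 := hn i hi j hj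
        rw [hp, map_sub, hs, hs]
        rw [dist_eq_norm, lt_div_iff₀ (by positivity)] at h2
        calc N (y i - y j) ≤ (|C| + 1) * ‖y i - y j‖ := hN2' _
          _ < ε := by linarith)
      refine ⟨x, ?_⟩
      have hlim : Filter.Tendsto y Filter.atTop (nhds (T x)) := by
        rw [Metric.tendsto_atTop]
        intro ε hε
        obtain ⟨n, hn⟩ := hx (c * ε) (by positivity)
        refine ⟨n, fun i hi => ?_⟩
        have h1 := hn i hi
        rw [hp, map_sub, hs] at h1
        have h2 := hN1 (y i - T x)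
        rw [dist_eq_norm]
        exact lt_of_mul_lt_mul_left (lt_of_le_of_lt h2 h1) hc.le
      exact tendsto_nhds_unique hlim hyz
    have hinj' : Function.Injective T := by
      intro x y hxy
      have := hinj (x - y) (by rw [map_sub, hxy, sub_self])
      exact sub_eq_zero.1 this
    obtain ⟨K, hK⟩ := T.antilipschitz_of_injective_of_isClosed_range hinj' hcl
    obtain ⟨x, hx⟩ := hT (1 / ((K : ℝ) + 1)) (by positivity)
    have h1 := hK.le_mul_dist x 0
    rw [map_zero, dist_zero_right, dist_zero_right] at h1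
    have hK0 : (0 : ℝ) ≤ K := K.2
    have h2 : ‖T x‖ * ((K : ℝ) + 1) < ‖x‖ := by
      have h3 : (0 : ℝ) < (K : ℝ) + 1 := by positivity
      calc ‖T x‖ * ((K : ℝ) + 1) < 1 / ((K : ℝ) + 1) * ‖x‖ * ((K : ℝ) + 1) :=
            mul_lt_mul_of_pos_right hx h3
        _ = ‖x‖ := by field_simp
    nlinarith [norm_nonneg (T x)]

end Pool.Helper570.NCS
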