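import Pool.Agent.Helper570.NCS.CaseA
import Pool.Agent.Helper570.NCS.CaseB
import Pool.Agent.Helper570.NCS.Greedy
import Pool.Agent.Helper570.NCS.Non

set_option autoImplicit false

namespace Pool.Helper570.NCS

open Metric Filter Topology NormedSpace

theorem continuous_of_bound {X : Type*} [NormedAddCommGroup X] [NormedSpace ℝ X]
    (N : Seminorm ℝ X) (C : ℝ) (hN2 : ∀ x, N x ≤ C * ‖x‖) : Continuous N := by
  have h1 : LipschitzWith (Real.toNNReal |C|) N := by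
    apply LipschitzWith.of_dist_le_mul
    intro x y
    rw [Real.dist_eq, dist_eq_norm, Real.coe_toNNReal _ (abs_nonneg _)]
    have h2 : |N x - N y| ≤ N (x - y) := abs_sub_map_le_sub N x y
    refine h2.trans ((hN2 _).trans ?_)
    exact mul_le_mul_of_nonneg_right (le_abs_self _) (norm_nonneg _)
  exact h1.continuous

/-- In an infinite-dimensional space with an equivalent `C^2` norm there is an injective bounded
operator which is not bounded below. -/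
theorem exists_op_of_C2 {X : Type*} [NormedAddCommGroup X] [NormedSpace ℝ X] [CompleteSpace X]
    (hX : ¬ FiniteDimensional ℝ X)
    (N : Seminorm ℝ X) (c C : ℝ) (hc : 0 < c) (hN1 : ∀ x, c * ‖x‖ ≤ N x)
    (hN2 : ∀ x, N x ≤ C * ‖x‖) (hN : ContDiffOn ℝ 2 N {0}ᶜ) :
    ∃ T : X →L[ℝ] X, (∀ x, T x = 0 → x = 0) ∧ ∀ δ : ℝ, 0 < δ → ∃ x : X, ‖T x‖ < δ * ‖x‖ := by
  have hNc : Continuous N := continuous_of_bound N C hN2
  rcases dichotomy (bmp N) (bmp_neg N) (bmp_zero N).le (1 / c) (by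
    intro x hx
    have h1 := lt_one_of_bmp N x hx
    have h2 := hN1 x
    rw [le_div_iff₀ hc]
    linarith) with ⟨u, δ, hδ, hlow, hu⟩ | ⟨𝒦, h𝒦, hpack⟩
  · apply exists_op_of_wuc N c C hc hN1 hN2 hNc _ u (1 / c) δ (by positivity) hδ hu hlow
    intro x hx
    exact (hN.contDiffAt (isOpen_compl_singleton.mem_nhds hx)).differentiableAt (by norm_num)
  · obtain ⟨r, hr, M, hM, hctrl⟩ := compact_control (bmp N) (bmp_contDiff N hNc hN) 𝒦 h𝒦
    obtain ⟨K, a, b, hab, hK𝒦, hKa, hfar⟩ := hpack r hr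
    obtain ⟨ψ, M', σ, B, hM', hσ, hσr, hB, h0, h1, h2⟩ := exists_psi (bmp N) (bmp_le_one N)
      r M hr hM K a b hab hKa (fun k hk => hctrl k (hK𝒦 k hk)) hfar
    exact exists_op_of_refl hX (refl_of_psi ψ r M' σ B hr hM' hσ hσr hB h0 h1 h2)

/-- The case `k ≥ 2` of the question. -/
theorem main_two {X : Type*} [NormedAddCommGroup X] [NormedSpace ℝ X] [CompleteSpace X]
    (hX : ¬ FiniteDimensional ℝ X) (k : ℕ∞) (hk : 2 ≤ k)
    (N : Seminorm ℝ X) (c C : ℝ) (hc : 0 < c) (hN1 : ∀ x, c * ‖x‖ ≤ N x)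
    (hN2 : ∀ x, N x ≤ C * ‖x‖) (hN : ContDiffOn ℝ k N {0}ᶜ) :
    ∃ p : Seminorm ℝ X, (∀ x, p x = 0 → x = 0) ∧ ContDiffOn ℝ k p {0}ᶜ ∧
      ¬ (∀ s : ℕ → X, (∀ ε : ℝ, 0 < ε → ∃ n : ℕ, ∀ i ≥ n, ∀ j ≥ n, p (s i - s j) < ε) →
        ∃ x : X, ∀ ε : ℝ, 0 < ε → ∃ n : ℕ, ∀ i ≥ n, p (s i - x) < ε) := by
  have hk' : (((2 : ℕ∞) : ℕ∞) : WithTop ℕ∞) ≤ (k : WithTop ℕ∞) := WithTop.coe_le_coe.2 hk
  obtain ⟨T, hT1, hT2⟩ := exists_op_of_C2 hX N c C hc hN1 hN2 (hN.of_le hk')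
  exact noncomplete_of_op N c C hc hN1 hN2 k hN T hT1 hT2

end Pool.Helper570.NCS
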