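import Mathlib

set_option autoImplicit false

namespace Pool.Helper570.NCS

open NormedSpace Metric

theorem norm_J {Z : Type*} [NormedAddCommGroup Z] [NormedSpace ℝ Z] (z : Z) :
    ‖inclusionInDoubleDual ℝ Z z‖ = ‖z‖ := (inclusionInDoubleDualLi (E := Z) ℝ).norm_map z

theorem mem_range_of_approx' {Z W : Type*} [NormedAddCommGroup Z] [NormedSpace ℝ Z]
    [NormedAddCommGroup W] [NormedSpace ℝ W]
    [CompleteSpace Z] (J : Z →ₗᵢ[ℝ] W) (φ : W)
    (h : ∀ δ : ℝ, 0 < δ → ∃ z : Z, ‖φ - J z‖ < δ) :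
    φ ∈ Set.range J := by
  have hcl : IsClosed (Set.range J) := J.isometry.isClosedEmbedding.isClosed_range
  rw [← hcl.closure_eq, Metric.mem_closure_iff]
  intro ε hε
  obtain ⟨z, hz⟩ := h ε hε
  exact ⟨J z, ⟨z, rfl⟩, by rwa [dist_eq_norm]⟩

theorem isClosed_range_isom {Z W : Type*} [NormedAddCommGroup Z] [NormedSpace ℝ Z]
    [NormedAddCommGroup W] [NormedSpace ℝ W]
    [CompleteSpace Z] (J : Z →ₗᵢ[ℝ] W) : IsClosed (Set.range J) :=
  J.isometry.isClosedEmbedding.isClosed_range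

theorem mem_range_of_approx {Z : Type*} [NormedAddCommGroup Z] [NormedSpace ℝ Z]
    [CompleteSpace Z] (φ : StrongDual ℝ (StrongDual ℝ Z))
    (h : ∀ δ : ℝ, 0 < δ → ∃ z : Z, ‖φ - inclusionInDoubleDual ℝ Z z‖ < δ) :
    φ ∈ Set.range (inclusionInDoubleDual ℝ Z) := by
  have hJ := mem_range_of_approx' (W := StrongDual ℝ (StrongDual ℝ Z))
    (inclusionInDoubleDualLi (E := Z) ℝ)
  exact hJ φ h

theorem surj_of_small {Z W : Type*} [NormedAddCommGroup Z] [NormedSpace ℝ Z]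
    [NormedAddCommGroup W] [NormedSpace ℝ W] (J : Z →ₗᵢ[ℝ] W) (r : ℝ) (hr : 0 < r)
    (h : ∀ φ : W, ‖φ‖ ≤ r → φ ∈ Set.range J) : Function.Surjective J := by
  intro φ
  by_cases h0 : φ = 0
  · exact ⟨0, by rw [h0, map_zero]⟩
  have hn : 0 < ‖φ‖ := norm_pos_iff.2 h0
  obtain ⟨z, hz⟩ := h ((r / ‖φ‖) • φ) (by
    rw [norm_smul, Real.norm_eq_abs, abs_of_pos (by positivity)]
    field_simp
    exact le_rfl)
  refine ⟨(r / ‖φ‖)⁻¹ • z, ?_⟩
  rw [map_smul, hz, smul_smul, inv_mul_cancel₀ (by positivity), one_smul]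

/-- A Banach space carrying a function which is uniformly convex near `0` is reflexive. -/
theorem refl_of_uc {Z : Type*} [NormedAddCommGroup Z] [NormedSpace ℝ Z] [CompleteSpace Z]
    (θ : Z → ℝ) (R κ b0 b1 : ℝ) (hR : 0 < R) (hκ : 0 < κ)
    (hb0 : ∀ z, ‖z‖ ≤ R → b0 ≤ θ z) (hb1 : ∀ z, ‖z‖ ≤ R → θ z ≤ b1)
    (huc : ∀ w h : Z, ‖w‖ ≤ R → ‖h‖ ≤ R →
      2 * θ w + κ * ‖h‖ ^ 2 ≤ θ (w + h) + θ (w - h)) :
    Function.Surjective (inclusionInDoubleDual ℝ Z) := by
  classical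
  -- the conjugate function
  let m : StrongDual ℝ Z → ℝ := fun F => ⨆ z : closedBall (0 : Z) R, (F z - θ z)
  have hne : Nonempty (closedBall (0 : Z) R) := ⟨⟨0, by simp [hR.le]⟩⟩
  have hbd : ∀ F : StrongDual ℝ Z,
      BddAbove (Set.range fun z : closedBall (0 : Z) R => (F z - θ z)) := by
    intro F
    refine ⟨‖F‖ * R - b0, ?_⟩
    rintro _ ⟨z, rfl⟩
    have hz : ‖(z : Z)‖ ≤ R := mem_closedBall_zero_iff.1 z.2
    have h1 := hb0 z hz
    have h2 : F z ≤ ‖F‖ * R := (le_abs_self _).trans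
      ((F.le_opNorm z).trans (mul_le_mul_of_nonneg_left hz (norm_nonneg _)))
    show F z - θ z ≤ _
    linarith
  have hm_ge : ∀ (F : StrongDual ℝ Z) (z : Z), ‖z‖ ≤ R → F z - θ z ≤ m F := by
    intro F z hz
    exact le_ciSup (hbd F) (⟨z, by simpa using hz⟩ : closedBall (0 : Z) R)
  have hm_le : ∀ (F : StrongDual ℝ Z) (c : ℝ), (∀ z : Z, ‖z‖ ≤ R → F z - θ z ≤ c) → m F ≤ c := by
    intro F c h
    exact ciSup_le fun z => h z (mem_closedBall_zero_iff.1 z.2)
  have hm_near : ∀ (F : StrongDual ℝ Z) (ε : ℝ), 0 < ε →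
      ∃ z : Z, ‖z‖ ≤ R ∧ m F - ε ≤ F z - θ z := by
    intro F ε hε
    obtain ⟨z, hz⟩ := exists_lt_of_lt_ciSup (show m F - ε < m F by linarith)
    exact ⟨z, mem_closedBall_zero_iff.1 z.2, hz.le⟩
  have hm_norm : ∀ F : StrongDual ℝ Z, ‖F‖ * R - b1 ≤ m F := by
    intro F
    by_contra hcon
    push Not at hcon
    have h1 : ‖F‖ ≤ (m F + b1) / R := by
      refine F.opNorm_le_bound' ?_ ?_
      · have := hm_ge F 0 (by simpa using hR.le)
        have h2 := hb1 0 (by simpa using hR.le)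
        have : 0 ≤ m F + b1 := by simp at this; linarith
        positivity
      · intro x hx
        have hxp : 0 < ‖x‖ := lt_of_le_of_ne (norm_nonneg _) (Ne.symm hx)
        have key : ∀ s : ℝ, |s| = 1 → s * F x ≤ (m F + b1) / R * ‖x‖ := by
          intro s hs
          have hn : ‖(s * (R / ‖x‖)) • x‖ = R := by
            rw [norm_smul, Real.norm_eq_abs, abs_mul, hs, one_mul, abs_of_pos (by positivity)]
            field_simp
          have h3 := hm_ge F ((s * (R / ‖x‖)) • x) hn.le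
          have h4 := hb1 ((s * (R / ‖x‖)) • x) hn.le
          rw [map_smul, smul_eq_mul] at h3
          have h5 : s * (R / ‖x‖) * F x ≤ m F + b1 := by linarith
          rw [div_mul_eq_mul_div, le_div_iff₀ hR]
          have h6 : s * (R / ‖x‖) * F x * ‖x‖ ≤ (m F + b1) * ‖x‖ :=
            mul_le_mul_of_nonneg_right h5 hxp.le
          calc s * F x * R = s * (R / ‖x‖) * F x * ‖x‖ := by field_simp
            _ ≤ _ := h6
        rw [Real.norm_eq_abs]
        apply abs_le.2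
        constructor
        · have := key (-1) (by simp)
          linarith
        · have := key 1 (by simp)
          linarith
    rw [le_div_iff₀ hR] at h1
    linarith
  -- near maximisers
  have hnear : ∀ (F : StrongDual ℝ Z) (ε : ℝ) (z₀ : Z), 0 < ε → ‖z₀‖ ≤ R →
      m F - ε ≤ F z₀ - θ z₀ → ∀ H : StrongDual ℝ Z,
        m (F + H) ≤ m F + ε + H z₀ + ‖H‖ ^ 2 / κ := by
    intro F ε z₀ hε hz₀ h0 H
    apply hm_le
    intro z hz
    have e1 : (1 / 2 : ℝ) • (z + z₀) + (1 / 2 : ℝ) • (z - z₀) = z := by module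
    have e2 : (1 / 2 : ℝ) • (z + z₀) - (1 / 2 : ℝ) • (z - z₀) = z₀ := by module
    have hw : ‖(1 / 2 : ℝ) • (z + z₀)‖ ≤ R := by
      rw [norm_smul, Real.norm_eq_abs, abs_of_pos (by norm_num)]
      have := norm_add_le z z₀
      linarith
    have hh : ‖(1 / 2 : ℝ) • (z - z₀)‖ ≤ R := by
      rw [norm_smul, Real.norm_eq_abs, abs_of_pos (by norm_num)]
      have := norm_sub_le z z₀
      linarith
    have h1 := huc _ _ hw hh
    rw [e1, e2] at h1
    have h2 := hm_ge F _ hw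
    have h3 : ‖(1 / 2 : ℝ) • (z - z₀)‖ = ‖z - z₀‖ / 2 := by
      rw [norm_smul, Real.norm_eq_abs, abs_of_pos (by norm_num)]; ring
    have h4 : F ((1 / 2 : ℝ) • (z + z₀)) = (F z + F z₀) / 2 := by
      rw [map_smul, map_add, smul_eq_mul]; ring
    rw [h3] at h1
    rw [h4] at h2
    have h5 : H z = H z₀ + H (z - z₀) := by rw [map_sub]; ring
    have h6 : H (z - z₀) ≤ ‖H‖ * ‖z - z₀‖ := (le_abs_self _).trans (H.le_opNorm _)
    have h7 : ‖H‖ * ‖z - z₀‖ ≤ ‖H‖ ^ 2 / κ + κ / 4 * ‖z - z₀‖ ^ 2 := by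
      have h8 : 0 ≤ (‖H‖ - κ / 2 * ‖z - z₀‖) ^ 2 / κ := by positivity
      have h9 : (‖H‖ - κ / 2 * ‖z - z₀‖) ^ 2 / κ
          = ‖H‖ ^ 2 / κ + κ / 4 * ‖z - z₀‖ ^ 2 - ‖H‖ * ‖z - z₀‖ := by
        field_simp
        ring
      linarith
    have h10 : (F + H) z = F z + H z := rfl
    rw [h10, h5]
    nlinarith [h1, h2, h6, h7]
  -- main step
  have main : ∀ φ : StrongDual ℝ (StrongDual ℝ Z), ‖φ‖ ≤ R / 2 →
      φ ∈ Set.range (inclusionInDoubleDual ℝ Z) := by
    intro φ hφ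
    apply mem_range_of_approx
    intro δ hδ
    have hVb : BddAbove (Set.range fun F : StrongDual ℝ Z => φ F - m F) := by
      refine ⟨b1, ?_⟩
      rintro _ ⟨F, rfl⟩
      have h1 : φ F ≤ ‖φ‖ * ‖F‖ := (le_abs_self _).trans (φ.le_opNorm F)
      have h2 := hm_norm F
      have h3 : ‖φ‖ * ‖F‖ ≤ R / 2 * ‖F‖ := mul_le_mul_of_nonneg_right hφ (norm_nonneg _)
      have h4 : 0 ≤ R / 2 * ‖F‖ := by positivity
      show φ F - m F ≤ b1
      nlinarith
    set V := ⨆ F : StrongDual ℝ Z, (φ F - m F) with hV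
    -- choose ε
    obtain ⟨t, ht0, ht1⟩ : ∃ t : ℝ, 0 < t ∧ (2 + 1 / κ) * t < δ := by
      refine ⟨δ / (2 * (2 + 1 / κ)), by positivity, ?_⟩
      have : 0 < 2 + 1 / κ := by positivity
      field_simp
      linarith
    have hε : 0 < t ^ 2 := by positivity
    obtain ⟨F, hF⟩ := exists_lt_of_lt_ciSup (show V - t ^ 2 < V by linarith)
    obtain ⟨z₀, hz₀, hz₁⟩ := hm_near F (t ^ 2) hε
    refine ⟨z₀, lt_of_le_of_lt ?_ ht1⟩
    refine ContinuousLinearMap.opNorm_le_bound' _ (by positivity) ?_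
    intro H hH
    have hHp : 0 < ‖H‖ := lt_of_le_of_ne (norm_nonneg _) (Ne.symm hH)
    have step : ∀ G : StrongDual ℝ Z, φ G - G z₀ ≤ 2 * t ^ 2 + ‖G‖ ^ 2 / κ := by
      intro G
      have h1 : φ (F + G) - m (F + G) ≤ V := le_ciSup hVb (F + G)
      have h2 := hnear F (t ^ 2) z₀ hε hz₀ hz₁ G
      rw [map_add] at h1
      linarith
    have key : ∀ s : ℝ, |s| = 1 → s * (φ H - H z₀) ≤ (2 + 1 / κ) * t * ‖H‖ := by
      intro s hs
      have h1 := step ((s * (t / ‖H‖)) • H)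
      have hn : ‖(s * (t / ‖H‖)) • H‖ = t := by
        rw [norm_smul, Real.norm_eq_abs, abs_mul, hs, one_mul, abs_of_pos (by positivity)]
        field_simp
      rw [hn, map_smul] at h1
      have h2 : ((s * (t / ‖H‖)) • H) z₀ = s * (t / ‖H‖) * H z₀ := rfl
      rw [h2, smul_eq_mul] at h1
      have h3 : s * (φ H - H z₀) * t ≤ ((2 + 1 / κ) * t * ‖H‖) * t := by
        have h4 : s * (t / ‖H‖) * φ H - s * (t / ‖H‖) * H z₀
            = s * (φ H - H z₀) * t / ‖H‖ := by field_simp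
        rw [h4, div_le_iff₀ hHp] at h1
        refine h1.trans (le_of_eq ?_)
        ring
      exact le_of_mul_le_mul_right h3 ht0
    rw [Real.norm_eq_abs]
    have e : (φ - (inclusionInDoubleDual ℝ Z) z₀) H = φ H - H z₀ := rfl
    rw [e]
    apply abs_le.2
    constructor
    · have := key (-1) (by simp)
      linarith
    · have := key 1 (by simp)
      linarith
  have hJ := surj_of_small (W := StrongDual ℝ (StrongDual ℝ Z))
    (inclusionInDoubleDualLi (E := Z) ℝ) (R / 2) (by positivity)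
  exact hJ main

/-- If the dual is reflexive, so is the space. -/
theorem refl_of_dual {X : Type*} [NormedAddCommGroup X] [NormedSpace ℝ X] [CompleteSpace X]
    (h : Function.Surjective (inclusionInDoubleDual ℝ (StrongDual ℝ X))) :
    Function.Surjective (inclusionInDoubleDual ℝ X) := by
  intro G
  by_contra hG
  have hG' : G ∉ Set.range (inclusionInDoubleDual ℝ X) := hG
  -- distance to the range is positive
  have hd : ∃ δ : ℝ, 0 < δ ∧ ∀ x : X, δ ≤ ‖G - inclusionInDoubleDual ℝ X x‖ := by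
    by_contra hcon
    push Not at hcon
    exact hG' (mem_range_of_approx G hcon)
  obtain ⟨δ, hδ, hd⟩ := hd
  have hcl : IsClosed (Set.range (inclusionInDoubleDual ℝ X)) := by
    have hJ := isClosed_range_isom (W := StrongDual ℝ (StrongDual ℝ X))
      (inclusionInDoubleDualLi (E := X) ℝ)
    exact hJ
  have hconv : Convex ℝ (Set.range (inclusionInDoubleDual ℝ X)) := by
    rintro _ ⟨x, rfl⟩ _ ⟨y, rfl⟩ a b - - -
    exact ⟨a • x + b • y, by simp⟩
  obtain ⟨φ, u, hφ1, hφ2⟩ := geometric_hahn_banach_closed_point hconv hcl hG'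
  have h0 : ∀ x : X, φ (inclusionInDoubleDual ℝ X x) = 0 := by
    intro x
    by_contra hne
    have h1 := hφ1 _ ⟨((u + 1) / φ (inclusionInDoubleDual ℝ X x)) • x, rfl⟩
    rw [map_smul, map_smul, smul_eq_mul, div_mul_cancel₀ _ hne] at h1
    linarith
  have hu : 0 < u := by
    have h1 := hφ1 _ ⟨0, rfl⟩
    rw [h0] at h1
    exact h1
  obtain ⟨f, hf⟩ := h φ
  have hf0 : f = 0 := by
    ext x
    have h1 := h0 x
    rw [← hf] at h1
    exact h1
  rw [← hf, hf0] at hφ2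
  simp at hφ2
  linarith

end Pool.Helper570.NCS
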