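import Pool.Agent.Helper570.NCS.Ekeland

set_option autoImplicit false

namespace Pool.Helper570.NCS

open Metric Filter Topology

/-- an upper limit of a bounded sequence -/
theorem exists_upper_limit (a : ℕ → ℝ) (B : ℝ) (ha : ∀ n, |a n| ≤ B) :
    ∃ P : ℝ, (∀ ε : ℝ, 0 < ε → ∀ᶠ n in atTop, a n ≤ P + ε) ∧
      (∀ ε : ℝ, 0 < ε → ∃ᶠ n in atTop, P - ε ≤ a n) := by
  have hb1 : IsBoundedUnder (· ≤ ·) atTop a :=
    isBoundedUnder_of ⟨B, fun n => (abs_le.1 (ha n)).2⟩
  have hb2 : IsBoundedUnder (· ≥ ·) atTop a :=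
    isBoundedUnder_of ⟨-B, fun n => (abs_le.1 (ha n)).1⟩
  refine ⟨limsup a atTop, fun ε hε => ?_, fun ε hε => ?_⟩
  · have h := eventually_lt_of_limsup_lt (show limsup a atTop < limsup a atTop + ε by linarith) hb1
    exact h.mono fun n hn => hn.le
  · have h := frequently_lt_of_lt_limsup hb2.isCoboundedUnder_le
      (show limsup a atTop - ε < limsup a atTop by linarith)
    exact h.mono fun n hn => hn.le

/-- passing to a subsequence with small oscillation -/
theorem exists_small_osc {X : Type*} [NormedAddCommGroup X] [NormedSpace ℝ X] [CompleteSpace X]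
    (N : Seminorm ℝ X) (c C : ℝ) (hc : 0 < c) (hN1 : ∀ x, c * ‖x‖ ≤ N x)
    (hN2 : ∀ x, N x ≤ C * ‖x‖) (hNc : Continuous N)
    (hd : ∀ x, x ≠ 0 → DifferentiableAt ℝ N x)
    (h : ℕ → StrongDual ℝ X) (hh : ∀ n, ‖h n‖ ≤ 1) (ε : ℝ) (hε : 0 < ε) :
    ∃ ψ : ℕ → ℕ, StrictMono ψ ∧ ∀ x : X, ‖x‖ ≤ 1 → ∃ n : ℕ, ∀ i ≥ n, ∀ j ≥ n,
      |h (ψ i) x - h (ψ j) x| ≤ ε := by
  have hb : ∀ n x, |h n x| ≤ ‖x‖ := by
    intro n x
    have h1 := (h n).le_opNorm x
    have h2 := mul_le_mul_of_nonneg_right (hh n) (norm_nonneg x)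
    rw [Real.norm_eq_abs] at h1
    linarith
  choose p hp1 hp2 using fun x => exists_upper_limit (fun n => h n x) ‖x‖ (fun n => hb n x)
  have hlip : ∀ x y, p x ≤ p y + ‖x - y‖ := by
    intro x y
    apply le_of_forall_pos_le_add
    intro δ hδ
    obtain ⟨n, hn1, hn2⟩ := ((hp2 x (δ / 2) (by positivity)).and_eventually
      (hp1 y (δ / 2) (by positivity))).exists
    have h1 := (abs_le.1 (hb n (x - y))).2
    rw [map_sub] at h1
    linarith
  have hp0 : p 0 ≤ 0 := by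
    apply le_of_forall_pos_le_add
    intro δ hδ
    obtain ⟨n, hn1⟩ := (hp2 0 δ hδ).exists
    rw [map_zero] at hn1
    linarith
  have hpn : ∀ x, p x ≤ ‖x‖ := by
    intro x
    have := hlip x 0
    rw [sub_zero] at this
    linarith
  have hpc : Continuous p := by
    have : LipschitzWith 1 p := by
      apply LipschitzWith.of_dist_le_mul
      intro x y
      rw [Real.dist_eq, NNReal.coe_one, one_mul, dist_eq_norm, abs_le]
      constructor
      · have := hlip y x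
        rw [norm_sub_rev] at this
        linarith
      · have := hlip x y
        linarith
    exact this.continuous
  obtain ⟨v, τ, hτ, hv⟩ := exists_almost_smooth N c C hc hN1 hN2 hNc hd p hpc hpn (ε / 2)
    (by positivity)
  obtain ⟨ψ, hψ, hψ2⟩ := extraction_forall_of_frequently
    (P := fun n k => |h k v - p v| ≤ 1 / ((n : ℝ) + 1)) (by
      intro n
      have h1 := (hp2 v (1 / ((n : ℝ) + 1)) (by positivity)).and_eventually
        (hp1 v (1 / ((n : ℝ) + 1)) (by positivity))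
      refine h1.mono fun k hk => ?_
      rw [abs_le]
      constructor <;> linarith [hk.1, hk.2])
  refine ⟨ψ, hψ, fun x hx => ?_⟩
  set δ := ε * τ / 8 with hδ
  have hδp : 0 < δ := by positivity
  have e1 := hψ.tendsto_atTop.eventually (hp1 (v + τ • x) δ hδp)
  have e2 := hψ.tendsto_atTop.eventually (hp1 (v - τ • x) δ hδp)
  have e3 : ∀ᶠ n : ℕ in atTop, |h (ψ n) v - p v| ≤ δ := by
    obtain ⟨m, hm⟩ := exists_nat_one_div_lt hδp
    filter_upwards [eventually_ge_atTop m] with n hn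
    refine (hψ2 n).trans (le_trans ?_ hm.le)
    apply one_div_le_one_div_of_le (by positivity)
    have : (m : ℝ) ≤ n := by exact_mod_cast hn
    linarith
  obtain ⟨n, hn⟩ := eventually_atTop.1 (e1.and (e2.and e3))
  refine ⟨n, ?_⟩
  have key : ∀ i ≥ n, ∀ j ≥ n, h (ψ i) x - h (ψ j) x ≤ ε := by
    intro i hi j hj
    obtain ⟨a1, a2, a3⟩ := hn i hi
    obtain ⟨b1, b2, b3⟩ := hn j hj
    have hu : ‖τ • x‖ ≤ τ := by
      rw [norm_smul, Real.norm_eq_abs, abs_of_pos hτ]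
      nlinarith
    have h1 := hv (τ • x) hu
    rw [map_add, map_smul, smul_eq_mul] at a1
    rw [map_sub, map_smul, smul_eq_mul] at b2
    have a4 := (abs_le.1 a3).1
    have b4 := (abs_le.1 b3).1
    have h2 : ε / 2 * ‖τ • x‖ ≤ ε / 2 * τ := mul_le_mul_of_nonneg_left hu (by positivity)
    have h3 : τ * (h (ψ i) x - h (ψ j) x) ≤ τ * ε := by
      rw [hδ] at *
      linarith
    exact le_of_mul_le_mul_left h3 hτ
  intro i hi j hj
  rw [abs_le]
  constructor
  · linarith [key j hj i hi]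
  · exact key i hi j hj

/-- every bounded sequence of functionals has a pointwise convergent subsequence -/
theorem exists_pointwise_cauchy {X : Type*} [NormedAddCommGroup X] [NormedSpace ℝ X]
    [CompleteSpace X]
    (N : Seminorm ℝ X) (c C : ℝ) (hc : 0 < c) (hN1 : ∀ x, c * ‖x‖ ≤ N x)
    (hN2 : ∀ x, N x ≤ C * ‖x‖) (hNc : Continuous N)
    (hd : ∀ x, x ≠ 0 → DifferentiableAt ℝ N x)
    (h : ℕ → StrongDual ℝ X) (hh : ∀ n, ‖h n‖ ≤ 1) :
    ∃ (ψ : ℕ → ℕ) (g : StrongDual ℝ X), StrictMono ψ ∧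
      ∀ x : X, Tendsto (fun n => h (ψ n) x) atTop (𝓝 (g x)) := by
  classical
  have hstep : ∀ (M : Set ℕ) (k : ℕ), M.Infinite → ∃ M' : Set ℕ, M'.Infinite ∧ M' ⊆ M ∧
      ∀ x : X, ‖x‖ ≤ 1 → ∃ n : ℕ, ∀ i ∈ M', i ≥ n → ∀ j ∈ M', j ≥ n →
        |h i x - h j x| ≤ 1 / ((k : ℝ) + 1) := by
    intro M k hM
    have hφ : StrictMono (Nat.nth (· ∈ M)) := Nat.nth_strictMono hM
    obtain ⟨ψ, hψ1, hψ2⟩ := exists_small_osc N c C hc hN1 hN2 hNc hd
      (fun n => h (Nat.nth (· ∈ M) n)) (fun n => hh _) (1 / ((k : ℝ) + 1)) (by positivity)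
    have hcomp : StrictMono fun n => Nat.nth (· ∈ M) (ψ n) := hφ.comp hψ1
    refine ⟨Set.range fun n => Nat.nth (· ∈ M) (ψ n), ?_, ?_, ?_⟩
    · exact Set.infinite_range_of_injective hcomp.injective
    · rintro _ ⟨n, rfl⟩
      exact Nat.nth_mem_of_infinite hM (ψ n)
    · intro x hx
      obtain ⟨n, hn⟩ := hψ2 x hx
      refine ⟨Nat.nth (· ∈ M) (ψ n), ?_⟩
      rintro _ ⟨i, rfl⟩ hi _ ⟨j, rfl⟩ hj
      exact hn i (hcomp.le_iff_le.1 hi) j (hcomp.le_iff_le.1 hj)
  choose! st hst1 hst2 hst3 using hstep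
  let M : ℕ → Set ℕ := fun k => Nat.rec Set.univ (fun k S => st S k) k
  have hMs : ∀ k, M (k + 1) = st (M k) k := fun k => rfl
  have hMinf : ∀ k, (M k).Infinite := by
    intro k
    induction k with
    | zero => exact Set.infinite_univ
    | succ k ih => rw [hMs]; exact hst1 _ _ ih
  have hMle : ∀ k l, k ≤ l → M l ⊆ M k := by
    intro k l hkl
    induction l, hkl using Nat.le_induction with
    | base => exact subset_rfl
    | succ l _ ih => rw [hMs]; exact (hst2 _ _ (hMinf l)).trans ih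
  obtain ⟨ψ, hψ1, hψ2⟩ := extraction_forall_of_frequently (P := fun n k => k ∈ M n) (by
    intro n
    exact Nat.frequently_atTop_iff_infinite.2 (hMinf n))
  have hcs1 : ∀ x : X, ‖x‖ ≤ 1 → CauchySeq fun n => h (ψ n) x := by
    intro x hx
    rw [Metric.cauchySeq_iff]
    intro ε hε
    obtain ⟨k, hk⟩ := exists_nat_one_div_lt hε
    obtain ⟨n, hn⟩ := hst3 (M k) k (hMinf k) x hx
    refine ⟨max n (k + 1), fun i hi j hj => ?_⟩
    rw [Real.dist_eq]
    have hi1 : i ≥ n := le_trans (le_max_left _ _) hi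
    have hj1 : j ≥ n := le_trans (le_max_left _ _) hj
    have hi2 : i ≥ k + 1 := le_trans (le_max_right _ _) hi
    have hj2 : j ≥ k + 1 := le_trans (le_max_right _ _) hj
    refine lt_of_le_of_lt (hn (ψ i) ?_ ?_ (ψ j) ?_ ?_) hk
    · rw [← hMs]; exact hMle _ _ hi2 (hψ2 i)
    · exact hi1.le.trans (hψ1.id_le i)
    · rw [← hMs]; exact hMle _ _ hj2 (hψ2 j)
    · exact hj1.le.trans (hψ1.id_le j)
  have hcs : ∀ x : X, CauchySeq fun n => h (ψ n) x := by
    intro x
    have hp : 0 < ‖x‖ + 1 := by positivity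
    have h1 := hcs1 ((‖x‖ + 1)⁻¹ • x) (by
      rw [norm_smul, norm_inv, Real.norm_eq_abs, abs_of_pos hp, inv_mul_le_iff₀ hp]
      linarith)
    have h2 : (fun n => h (ψ n) x) = fun n => (‖x‖ + 1) * h (ψ n) ((‖x‖ + 1)⁻¹ • x) := by
      funext n
      rw [map_smul, smul_eq_mul]
      field_simp
    rw [h2]
    obtain ⟨l, hl⟩ := cauchySeq_tendsto_of_complete h1
    exact (hl.const_mul (‖x‖ + 1)).cauchySeq
  choose g₀ hg₀ using fun x => cauchySeq_tendsto_of_complete (hcs x)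
  refine ⟨ψ, continuousLinearMapOfTendsto (fun n => h (ψ n)) (tendsto_pi_nhds.2 hg₀), hψ1, ?_⟩
  intro x
  exact hg₀ x

end Pool.Helper570.NCS
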